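import Mathlib
import Pool.Agent.NPC.Defs

/-!
# Response time variability: definitions
-/

set_option autoImplicit false

namespace Pool.Agent.Rtv

/-- A sequence `s` (positions `0, 1, …, D - 1`, where `D = ∑ i, d i`) is feasible for the demands
`d` if every model `i` occurs exactly `d i` times. -/
def Feasible {n : ℕ} (d : Fin n → ℕ) (s : Fin (∑ i, d i) → Fin n) : Prop :=
  ∀ i, (Finset.univ.filter fun x => s x = i).card = d i

/-- The distance from the position `x` to the next copy of the same model; the sequence is read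
cyclically. -/
noncomputable def gap {D n : ℕ} (s : Fin D → Fin n) (x : Fin D) : ℕ :=
  sInf {t : ℕ | 1 ≤ t ∧ ∃ y : Fin D, (y : ℕ) = ((x : ℕ) + t) % D ∧ s y = s x}

/-- The response time variability: the sum over all copies `x` of all models `i` of
`(t - D / d i) ^ 2`, where `t` is the distance from `x` to the next copy of `i`. (A model with
`d i = 1` contributes `0`, since then `t = D`.) -/
noncomputable def rtv {n : ℕ} (d : Fin n → ℕ) (s : Fin (∑ i, d i) → Fin n) : ℚ :=
  ∑ x, ((gap s x : ℚ) - ((∑ i, d i : ℕ) : ℚ) / (d (s x) : ℚ)) ^ 2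

/-- the `B` binary digits of `v`, least significant first -/
def bitsW (B v : ℕ) : List Bool := (List.range B).map fun j => v.testBit j

/-- The code of a list of numbers `< 2 ^ B`: `1 ^ B 0`, then every number with `B` binary digits. -/
def code (B : ℕ) (l : List ℕ) : List Bool :=
  List.replicate B true ++ false :: l.flatMap (bitsW B)

/-- The Response Time Variability decision problem, restricted to the instances whose bound `K` is
at most `q N`, `N` the length of the input: the input is the code of `a, b, d_0, …, d_(n-1)` with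
`K = a / b`. -/
def smallRTV (q : Polynomial ℕ) : Set (List Bool) :=
  {x | ∃ (B a b n : ℕ) (d : Fin n → ℕ), x = code B (a :: b :: List.ofFn d) ∧
    a < 2 ^ B ∧ b < 2 ^ B ∧ (∀ i, d i < 2 ^ B) ∧ 0 < b ∧ 0 < n ∧ (∀ i, 0 < d i) ∧
    (a : ℚ) / b ≤ (q.eval x.length : ℕ) ∧ ∃ s, Feasible d s ∧ rtv d s ≤ (a : ℚ) / b}

/-! ### certificates -/

/-- The certificate `(g, u, v, z)` for the disjointness of the arithmetic progressions
`a, a + e, …, a + (m - 1) e` and `a', a' + e', …, a' + (m' - 1) e'`. -/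
def apC (a e m a' e' m' g u v z : ℕ) : Prop :=
  (g ≠ 0 ∧ e % g = 0 ∧ e' % g = 0 ∧ a % g ≠ a' % g) ∨
  (g ≠ 0 ∧ u * e = v * e' + g ∧ z % e = a % e ∧ z % e' = a' % e' ∧ a ≤ z ∧ a' ≤ z ∧
    g * (z - max a a') < e * e' ∧ min (a + (m - 1) * e) (a' + (m' - 1) * e') < z)

/-- A slot `k` (nonempty if `M k ≠ 0`) describes the copies `A k + j E k`, `j < M k`, of the model
`I k`; `H k` is the distance from the last one of them to the next copy of `I k`. -/
structure Chk (n R : ℕ) (d I A E M H : ℕ → ℕ) (G U V Z : ℕ → ℕ → ℕ) (a b : ℕ) : Prop where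
  rng : ∀ k < R, M k ≠ 0 → I k < n ∧ 1 ≤ E k ∧ 1 ≤ H k ∧
    A k + (M k - 1) * E k < ∑ i ∈ Finset.range n, d i
  nxt : ∀ k < R, M k ≠ 0 → ∃ l < R, M l ≠ 0 ∧ I l = I k ∧
    (A k + (M k - 1) * E k + H k) % (∑ i ∈ Finset.range n, d i) = A l
  cnt : ∀ i < n, ∑ k ∈ Finset.range R, (if I k = i then M k else 0) = d i
  dis : ∀ k < R, ∀ l < R, k < l → M k ≠ 0 → M l ≠ 0 →
    apC (A k) (E k) (M k) (A l) (E l) (M l) (G k l) (U k l) (V k l) (Z k l)
  cst : b * (∏ i ∈ Finset.range n, d i) *
      ∑ k ∈ Finset.range R, (if M k = 0 then 0 else (M k - 1) * (E k * E k) + H k * H k) ≤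
    a * (∏ i ∈ Finset.range n, d i) + b * ((∑ i ∈ Finset.range n, d i) *
      (∑ i ∈ Finset.range n, d i)) *
      ∑ i ∈ Finset.range n, (∏ i ∈ Finset.range n, d i) / d i

/-- demands on `Fin n` as a function on `ℕ` -/
def dN {n : ℕ} (d : Fin n → ℕ) (i : ℕ) : ℕ := if h : i < n then d ⟨i, h⟩ else 0

theorem sum_dN {n : ℕ} (d : Fin n → ℕ) : ∑ i ∈ Finset.range n, dN d i = ∑ i, d i := by
  rw [Finset.sum_range]
  exact Finset.sum_congr rfl fun i _ => by rw [dN, dif_pos i.2]

theorem prod_dN {n : ℕ} (d : Fin n → ℕ) : ∏ i ∈ Finset.range n, dN d i = ∏ i, d i := by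
  rw [Finset.prod_range]
  exact Finset.prod_congr rfl fun i _ => by rw [dN, dif_pos i.2]

end Pool.Agent.Rtv
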