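import Pool.Agent.Rtv.Def

/-!
# RTV AP: disjoint arithmetic progressions
-/

set_option autoImplicit false

namespace Pool.Agent.Rtv

open Finset

-- BEGIN ap_sound
private theorem ap_sound_dvd {x z a e j : ℕ} (hx : x = a + j * e) (hz : z % e = a % e)
    (hxz : x ≤ z) : e ∣ z - x := by
  rw [← Nat.modEq_iff_dvd' hxz, Nat.ModEq, hz, hx, Nat.add_mul_mod_self_right]

/-- A1. First case: reduce modulo `g`. Second case: if `x = a + j e = a' + j' e'`, then
`max a a' ≤ x ≤ min .. < z`, `e` and `e'` divide `z - x`, so `lcm e e' ≤ z - x ≤ z - max a a'`;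
`gcd e e'` divides `g = u e - v e'`, so `e e' = gcd * lcm ≤ g (z - max a a') < e e'`. -/
theorem ap_sound (a e m a' e' m' g u v z : ℕ) (he : 1 ≤ e) (he' : 1 ≤ e')
    (h : apC a e m a' e' m' g u v z) : ∀ j < m, ∀ j' < m', a + j * e ≠ a' + j' * e' := by
  intro j hj j' hj' heq
  rcases h with ⟨_, h1, h2, h3⟩ | ⟨hg, h1, h2, h3, _, _, h6, h7⟩
  · apply h3
    obtain ⟨k, hk⟩ := Nat.dvd_of_mod_eq_zero h1
    obtain ⟨k', hk'⟩ := Nat.dvd_of_mod_eq_zero h2
    have e1 : (a + j * e) % g = a % g := by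
      rw [hk, show j * (g * k) = (j * k) * g by ring, Nat.add_mul_mod_self_right]
    have e2 : (a' + j' * e') % g = a' % g := by
      rw [hk', show j' * (g * k') = (j' * k') * g by ring, Nat.add_mul_mod_self_right]
    rw [← e1, ← e2, heq]
  · obtain ⟨x, hx⟩ : ∃ x, x = a + j * e := ⟨_, rfl⟩
    have hx' : x = a' + j' * e' := hx.trans heq
    have l1 : j * e ≤ (m - 1) * e := Nat.mul_le_mul_right _ (by omega)
    have l2 : j' * e' ≤ (m' - 1) * e' := Nat.mul_le_mul_right _ (by omega)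
    have hxz : x < z := by
      refine lt_of_le_of_lt ?_ h7
      refine le_min ?_ ?_ <;> omega
    have hmx : max a a' ≤ x := by
      refine max_le ?_ ?_ <;> omega
    have d1 := ap_sound_dvd hx h2 hxz.le
    have d2 := ap_sound_dvd hx' h3 hxz.le
    have d3 : Nat.lcm e e' ≤ z - x := Nat.le_of_dvd (by omega) (Nat.lcm_dvd d1 d2)
    have d4 : Nat.gcd e e' ∣ g := by
      have q1 : Nat.gcd e e' ∣ v * e' + g := by
        rw [← h1]
        exact Dvd.dvd.mul_left (Nat.gcd_dvd_left e e') u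
      exact (Nat.dvd_add_right (Dvd.dvd.mul_left (Nat.gcd_dvd_right e e') v)).1 q1
    have d5 : Nat.gcd e e' ≤ g := Nat.le_of_dvd (Nat.pos_of_ne_zero hg) d4
    have d6 : e * e' ≤ g * (z - max a a') := by
      rw [← Nat.gcd_mul_lcm e e']
      exact Nat.mul_le_mul d5 (d3.trans (by omega))
    omega
-- END ap_sound

-- BEGIN bez
/-- A2. Bezout with natural numbers. (`e = g k`, `e' = g k'` with `k, k'` coprime; `u` = an inverse
of `k` modulo `k'` with `1 ≤ u ≤ k'`; then `u k = 1 + v k'`.) -/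
theorem bez (e e' : ℕ) (he : 1 ≤ e) (he' : 1 ≤ e') :
    ∃ u v : ℕ, u ≤ e' ∧ v ≤ e ∧ u * e = v * e' + Nat.gcd e e' := by
  have hg : 0 < Nat.gcd e e' := Nat.gcd_pos_of_pos_left _ he
  obtain ⟨k, hk⟩ := Nat.gcd_dvd_left e e'
  obtain ⟨k', hk'⟩ := Nat.gcd_dvd_right e e'
  have hk0 : 1 ≤ k := by
    by_contra hc
    have : k = 0 := by omega
    rw [this, mul_zero] at hk
    omega
  have hk0' : 1 ≤ k' := by
    by_contra hc
    have : k' = 0 := by omega
    rw [this, mul_zero] at hk'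
    omega
  have hcop : Nat.Coprime k k' := by
    have h1 : Nat.gcd (Nat.gcd e e' * k) (Nat.gcd e e' * k') = Nat.gcd e e' * Nat.gcd k k' :=
      Nat.gcd_mul_left _ _ _
    rw [← hk, ← hk'] at h1
    have h2 : Nat.gcd e e' * Nat.gcd k k' = Nat.gcd e e' * 1 := by rw [← h1, mul_one]
    exact Nat.eq_of_mul_eq_mul_left hg h2
  -- an inverse `u` of `k` modulo `k'`, `1 ≤ u ≤ k'`
  obtain ⟨u, hu1, hu2, hu3⟩ : ∃ u, 1 ≤ u ∧ u ≤ k' ∧ (u * k) % k' = 1 % k' := by
    rcases Nat.lt_or_ge 1 k' with h1 | h1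
    · obtain ⟨m, hm⟩ := Nat.exists_mul_mod_eq_one_of_coprime hcop h1
      refine ⟨m % k', ?_, (Nat.mod_lt _ (by omega)).le, ?_⟩
      · by_contra hc
        have h2 : m % k' = 0 := by omega
        have h3 : (k * m) % k' = 0 := by
          rw [Nat.mul_mod, h2, mul_zero, Nat.zero_mod]
        have h4 := hm.2
        omega
      · rw [Nat.mod_mul_mod, mul_comm m k, hm.2, Nat.mod_eq_of_lt h1]
    · have : k' = 1 := by omega
      subst this
      exact ⟨1, le_refl _, le_refl _, by simp [Nat.mod_one]⟩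
  have h1 : 1 ≤ u * k := Nat.mul_pos hu1 hk0
  obtain ⟨v, hv⟩ : k' ∣ u * k - 1 := (Nat.modEq_iff_dvd' h1).1 hu3.symm
  have hv' : u * k = v * k' + 1 := by
    have : k' * v = v * k' := mul_comm _ _
    omega
  refine ⟨u, v, ?_, ?_, ?_⟩
  · have : k' ≤ Nat.gcd e e' * k' := Nat.le_mul_of_pos_left _ hg
    omega
  · have h2 : v * k' ≤ k * k' := by
      have : u * k ≤ k' * k := Nat.mul_le_mul_right _ hu2
      have h3 : k' * k = k * k' := mul_comm _ _
      omega
    have h3 : v ≤ k := Nat.le_of_mul_le_mul_right h2 (by omega)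
    have : k ≤ Nat.gcd e e' * k := Nat.le_mul_of_pos_left _ hg
    omega
  · calc u * e = Nat.gcd e e' * (u * k) := by conv_lhs => rw [hk]
                                              ring
      _ = v * (Nat.gcd e e' * k') + Nat.gcd e e' := by rw [hv']; ring
      _ = v * e' + Nat.gcd e e' := by rw [← hk']
-- END bez

-- BEGIN crt
/-- A3. (`Nat.chineseRemainder'`; shift to the least solution `≥ c`.) -/
theorem crt (a e a' e' c : ℕ) (he : 1 ≤ e) (he' : 1 ≤ e')
    (h : a % Nat.gcd e e' = a' % Nat.gcd e e') :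
    ∃ z, z % e = a % e ∧ z % e' = a' % e' ∧ c ≤ z ∧ z < c + Nat.lcm e e' := by
  obtain ⟨x, hx, hx'⟩ := Nat.chineseRemainder' (show a ≡ a' [MOD Nat.gcd e e'] from h)
  have hL : 0 < Nat.lcm e e' := Nat.lcm_pos he he'
  set L := Nat.lcm e e' with hLdef
  -- `z = c + ((x - c) mod L)`
  set r := (x + L * c - c) % L with hr
  have hr1 : r < L := Nat.mod_lt _ hL
  have hLc : c ≤ L * c := Nat.le_mul_of_pos_left _ hL
  have hz : c + r ≡ x [MOD L] := by
    have h1 : c + r ≡ c + (x + L * c - c) [MOD L] := Nat.ModEq.add_left c (Nat.mod_modEq _ _)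
    have h2 : c + (x + L * c - c) = x + L * c := by omega
    rw [h2] at h1
    refine h1.trans ?_
    show (x + L * c) % L = x % L
    rw [Nat.add_mul_mod_self_left]
  have h3 : c + r ≡ x [MOD e] := hz.of_dvd (Nat.dvd_lcm_left e e')
  have h4 : c + r ≡ x [MOD e'] := hz.of_dvd (Nat.dvd_lcm_right e e')
  exact ⟨c + r, h3.trans hx, h4.trans hx', by omega, by omega⟩
-- END crt

-- BEGIN ap_complete
/-- A4. (`g = gcd e e'`; A2, A3 with `c = max a a'`; `z ≤ min ..` would be a common element.) -/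
theorem ap_complete (a e m a' e' m' : ℕ) (he : 1 ≤ e) (he' : 1 ≤ e') (hm : 1 ≤ m) (hm' : 1 ≤ m')
    (h : ∀ j < m, ∀ j' < m', a + j * e ≠ a' + j' * e') :
    ∃ g u v z, apC a e m a' e' m' g u v z ∧ g ≤ e ∧ u ≤ e' ∧ v ≤ e ∧ z ≤ a + a' + e * e' := by
  have hg : 0 < Nat.gcd e e' := Nat.gcd_pos_of_pos_left _ he
  have hge : Nat.gcd e e' ≤ e := Nat.gcd_le_left _ he
  by_cases hmod : a % Nat.gcd e e' = a' % Nat.gcd e e'
  · obtain ⟨u, v, hu, hv, huv⟩ := bez e e' he he'
    obtain ⟨z, hz1, hz2, hz3, hz4⟩ := crt a e a' e' (max a a') he he' hmod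
    have hL : Nat.lcm e e' ≤ e * e' := Nat.le_of_dvd (Nat.mul_pos he he') (Nat.lcm_dvd_mul e e')
    have ha : a ≤ max a a' := le_max_left _ _
    have ha' : a' ≤ max a a' := le_max_right _ _
    have hmx : max a a' ≤ a + a' := by omega
    refine ⟨Nat.gcd e e', u, v, z, Or.inr ⟨hg.ne', huv, hz1, hz2, ha.trans hz3, ha'.trans hz3,
      ?_, ?_⟩, hge, hu, hv, by omega⟩
    · rw [← Nat.gcd_mul_lcm e e']
      exact Nat.mul_lt_mul_of_pos_left (by omega) hg
    · by_contra hc
      rw [not_lt] at hc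
      have hc1 : z ≤ a + (m - 1) * e := hc.trans (min_le_left _ _)
      have hc2 : z ≤ a' + (m' - 1) * e' := hc.trans (min_le_right _ _)
      obtain ⟨j, hj⟩ : e ∣ z - a := (Nat.modEq_iff_dvd' (ha.trans hz3)).1 hz1.symm
      obtain ⟨j', hj'⟩ : e' ∣ z - a' := (Nat.modEq_iff_dvd' (ha'.trans hz3)).1 hz2.symm
      have e1 : a + j * e = z := by
        have : j * e = e * j := mul_comm _ _
        have := ha.trans hz3
        omega
      have e2 : a' + j' * e' = z := by
        have : j' * e' = e' * j' := mul_comm _ _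
        have := ha'.trans hz3
        omega
      have l1 : j ≤ m - 1 := by
        have : j * e ≤ (m - 1) * e := by omega
        exact Nat.le_of_mul_le_mul_right this he
      have l2 : j' ≤ m' - 1 := by
        have : j' * e' ≤ (m' - 1) * e' := by omega
        exact Nat.le_of_mul_le_mul_right this he'
      exact h j (by omega) j' (by omega) (e1.trans e2.symm)
  · refine ⟨Nat.gcd e e', 0, 0, 0, Or.inl ⟨hg.ne', ?_, ?_, hmod⟩, hge, Nat.zero_le _,
      Nat.zero_le _, Nat.zero_le _⟩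
    · exact Nat.mod_eq_zero_of_dvd (Nat.gcd_dvd_left e e')
    · exact Nat.mod_eq_zero_of_dvd (Nat.gcd_dvd_right e e')
-- END ap_complete

end Pool.Agent.Rtv
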