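import Pool.Agent.Rtv.Gap
import Pool.Agent.Rtv.Ap

/-!
# RTV CMP: a sequence of small variability gives a certificate
-/

set_option autoImplicit false

namespace Pool.Agent.Rtv

open Finset

/-- the nearest integer to `D / c` -/
def rnd (D c : ℕ) : ℕ := (2 * D + c) / (2 * c)

/-- the cuts: the copies `x` whose gap is not `q (s x)`, and the last copies -/
def cuts {D n : ℕ} (s : Fin D → Fin n) (q : Fin n → ℕ) (x : Fin D) : Prop :=
  gap s x ≠ q (s x) ∨ D ≤ (x : ℕ) + gap s x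

/-- `x` lies in the segment that ends with the cut `y` -/
def seg {D n : ℕ} (s : Fin D → Fin n) (q : Fin n → ℕ) (x y : Fin D) : Prop :=
  cuts s q y ∧ s x = s y ∧ x ≤ y ∧ ∀ z, x ≤ z → z < y → s z = s y → ¬ cuts s q z

open scoped Classical

/-- the number of elements of the segment of `y` -/
noncomputable def sgn {D n : ℕ} (s : Fin D → Fin n) (q : Fin n → ℕ) (y : Fin D) : ℕ :=
  (univ.filter fun x => seg s q x y).card

-- BEGIN rnd_spec
private theorem rnd_spec_sq {x : ℚ} (h : (1 : ℚ) / 2 ≤ |x|) : (1 : ℚ) / 4 ≤ x ^ 2 := by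
  rw [← sq_abs]
  nlinarith

/-- C1. -/
theorem rnd_spec (D c : ℕ) (hc : 0 < c) (hcD : c ≤ D) : 1 ≤ rnd D c ∧ rnd D c ≤ D ∧
    ∀ t : ℕ, t ≠ rnd D c → (1 : ℚ) / 4 ≤ ((t : ℚ) - (D : ℚ) / (c : ℚ)) ^ 2 := by
  have h2 : 0 < 2 * c := by omega
  have h3 : rnd D c * (2 * c) ≤ 2 * D + c := Nat.div_mul_le_self _ _
  have h4 : 2 * D + c < (rnd D c + 1) * (2 * c) := by
    have := Nat.lt_div_mul_add h2 (a := 2 * D + c)
    rw [add_mul, one_mul]
    exact this
  have hcq : (0 : ℚ) < c := by exact_mod_cast hc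
  refine ⟨?_, ?_, fun t ht => ?_⟩
  · rw [rnd, Nat.le_div_iff_mul_le h2]
    omega
  · have h5 : rnd D c * (2 * c) < (D + 1) * (2 * c) := by
      have h6 : D + 1 ≤ (D + 1) * c := Nat.le_mul_of_pos_right _ hc
      have h7 : (D + 1) * (2 * c) = (D + 1) * c + (D * c + c) := by ring
      have h8 : D ≤ D * c := Nat.le_mul_of_pos_right _ hc
      omega
    exact Nat.lt_succ_iff.1 (Nat.lt_of_mul_lt_mul_right h5)
  · apply rnd_spec_sq
    have hx : (D : ℚ) / c * c = D := by field_simp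
    have h3' : (rnd D c : ℚ) * (2 * c) ≤ 2 * D + c := by exact_mod_cast h3
    have h4' : (2 : ℚ) * D + c < (rnd D c + 1) * (2 * c) := by exact_mod_cast h4
    rcases Nat.lt_or_gt_of_ne ht with h | h
    · have h5 : (t : ℚ) + 1 ≤ rnd D c := by exact_mod_cast h
      rw [abs_of_nonpos] <;> nlinarith
    · have h5 : (rnd D c : ℚ) + 1 ≤ t := by exact_mod_cast h
      rw [abs_of_nonneg] <;> nlinarith
-- END rnd_spec

-- BEGIN dev_card
/-- C2. (C1; the terms of `rtv` are nonnegative. `Feasible` gives `d (s x) ≤ D`, `0 < d (s x)`.) -/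
theorem dev_card {n : ℕ} (d : Fin n → ℕ) (s : Fin (∑ i, d i) → Fin n) (hs : Feasible d s)
    (Q : ℕ) (h : rtv d s ≤ Q) :
    (univ.filter fun x => gap s x ≠ rnd (∑ i, d i) (d (s x))).card ≤ 4 * Q := by
  set S := univ.filter fun x => gap s x ≠ rnd (∑ i, d i) (d (s x)) with hS
  have h1 : ∀ x ∈ S, (1 : ℚ) / 4 ≤
      ((gap s x : ℚ) - ((∑ i, d i : ℕ) : ℚ) / (d (s x) : ℚ)) ^ 2 := by
    intro x hx
    rw [hS, mem_filter] at hx
    have hpos : 0 < d (s x) := by
      rw [← hs (s x)]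
      exact Finset.card_pos.2 ⟨x, by rw [mem_filter]; exact ⟨mem_univ _, rfl⟩⟩
    have hle : d (s x) ≤ ∑ i, d i :=
      Finset.single_le_sum (f := d) (fun _ _ => Nat.zero_le _) (mem_univ (s x))
    exact (rnd_spec _ _ hpos hle).2.2 _ hx.2
  have h2 : (S.card : ℚ) * (1 / 4) ≤ rtv d s := by
    have h3 := Finset.card_nsmul_le_sum S _ _ h1
    rw [nsmul_eq_mul] at h3
    refine h3.trans ?_
    rw [rtv]
    exact Finset.sum_le_sum_of_subset_of_nonneg (subset_univ _) fun x _ _ => sq_nonneg _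
  have h4 : (S.card : ℚ) ≤ ((4 * Q : ℕ) : ℚ) := by
    push_cast
    linarith
  exact_mod_cast h4
-- END dev_card

-- BEGIN last_card
private theorem last_card_lt {D n : ℕ} (s : Fin D → Fin n) {x x' : Fin D} (h : (x : ℕ) < (x' : ℕ))
    (hs : s x = s x') (hx : D ≤ (x : ℕ) + gap s x) : False := by
  have h1 := (gap_spec s x).2.2.2 ((x' : ℕ) - (x : ℕ)) (by omega) x' (by
    rw [Nat.add_sub_cancel' h.le, Nat.mod_eq_of_lt x'.2]) hs.symm
  have h2 := x'.2
  omega

/-- C3. (The map `x ↦ s x` is injective on this set: if `s x = s x'`, `x < x'`, then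
`gap s x ≤ x' - x` by G1, so `x + gap s x ≤ x' < D`.) -/
theorem last_card {D n : ℕ} (s : Fin D → Fin n) :
    (univ.filter fun x : Fin D => D ≤ (x : ℕ) + gap s x).card ≤ n := by
  have h : (univ.filter fun x : Fin D => D ≤ (x : ℕ) + gap s x).card ≤ (univ : Finset (Fin n)).card := by
    apply Finset.card_le_card_of_injOn s (fun _ _ => Finset.mem_coe.2 (mem_univ _))
    intro x hx x' hx' hss
    have h1 := (mem_filter.1 (Finset.mem_coe.1 hx)).2
    have h2 := (mem_filter.1 (Finset.mem_coe.1 hx')).2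
    rcases lt_trichotomy (x : ℕ) (x' : ℕ) with hlt | heq | hgt
    · exact (last_card_lt s hlt hss h1).elim
    · exact Fin.ext heq
    · exact (last_card_lt s hgt hss.symm h2).elim
  rwa [Finset.card_univ, Fintype.card_fin] at h
-- END last_card

-- BEGIN cuts_card
/-- C4. (C2, C3.) -/
theorem cuts_card {n : ℕ} (d : Fin n → ℕ) (s : Fin (∑ i, d i) → Fin n) (hs : Feasible d s)
    (Q : ℕ) (h : rtv d s ≤ Q) :
    (univ.filter fun x => cuts s (fun i => rnd (∑ i, d i) (d i)) x).card ≤ 4 * Q + n := by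
  refine le_trans ?_ (Nat.add_le_add (dev_card d s hs Q h) (last_card s))
  refine le_trans ?_ (card_union_le _ _)
  apply card_le_card
  intro x hx
  rw [mem_filter] at hx
  rw [mem_union, mem_filter, mem_filter]
  rcases hx.2 with h1 | h1
  · exact Or.inl ⟨mem_univ _, h1⟩
  · exact Or.inr ⟨mem_univ _, h1⟩
-- END cuts_card

-- BEGIN seg_unique
private theorem seg_unique_last {D n : ℕ} (s : Fin D → Fin n) (q : Fin n → ℕ) (y : Fin D)
    (hy : ∀ z : Fin D, s z = s y → z ≤ y) : cuts s q y := by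
  right
  by_contra hc
  push Not at hc
  obtain ⟨g1, -, ⟨z, hz, hsz⟩, -⟩ := gap_spec s y
  rw [Nat.mod_eq_of_lt hc] at hz
  have h1 := hy z hsz
  rw [Fin.le_def] at h1
  omega

/-- C5. (Existence: the least cut `y ≥ x` with `s y = s x`; it exists, because the last copy of
`s x` is a cut by G1.) -/
theorem seg_unique {D n : ℕ} (s : Fin D → Fin n) (q : Fin n → ℕ) (x : Fin D) :
    ∃! y, seg s q x y := by
  have hne : (univ.filter fun y : Fin D => cuts s q y ∧ s y = s x ∧ x ≤ y).Nonempty := by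
    have h1 : (univ.filter fun y : Fin D => s y = s x).Nonempty :=
      ⟨x, by rw [mem_filter]; exact ⟨mem_univ _, rfl⟩⟩
    have h2 := Finset.max'_mem _ h1
    rw [mem_filter] at h2
    refine ⟨_, by
      rw [mem_filter]
      refine ⟨mem_univ _, seg_unique_last s q _ fun z hz => ?_, h2.2, ?_⟩
      · exact Finset.le_max' _ z (by rw [mem_filter]; exact ⟨mem_univ _, hz.trans h2.2⟩)
      · exact Finset.le_max' _ x (by rw [mem_filter]; exact ⟨mem_univ _, rfl⟩)⟩
  have hm := Finset.min'_mem _ hne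
  rw [mem_filter] at hm
  refine ⟨_, ⟨hm.2.1, hm.2.2.1.symm, hm.2.2.2, fun z hz1 hz2 hz3 hz4 => ?_⟩, ?_⟩
  · have := Finset.min'_le (univ.filter fun y : Fin D => cuts s q y ∧ s y = s x ∧ x ≤ y) z
      (by rw [mem_filter]; exact ⟨mem_univ _, hz4, hz3.trans hm.2.2.1, hz1⟩)
    exact absurd hz2 (not_lt.2 this)
  · rintro y ⟨hy1, hy2, hy3, hy4⟩
    have h1 := Finset.min'_le (univ.filter fun y : Fin D => cuts s q y ∧ s y = s x ∧ x ≤ y) y
      (by rw [mem_filter]; exact ⟨mem_univ _, hy1, hy2.symm, hy3⟩)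
    rcases h1.lt_or_eq with h2 | h2
    · exact absurd hm.2.1 (hy4 _ hm.2.2.2 h2 (hm.2.2.1.trans hy2))
    · exact h2.symm
-- END seg_unique

-- BEGIN seg_step
/-- C6. If `x` lies in the segment of `y` and `x ≠ y`, then `gap s x = q (s y)`, and
`x + q (s y)` lies in the segment. (`x` is not a cut; no copy lies between `x` and `x + gap s x`,
by G1; `x + gap s x < D` and `y` is a copy, so `x + gap s x ≤ y`.) -/
theorem seg_step {D n : ℕ} (s : Fin D → Fin n) (q : Fin n → ℕ) (x y : Fin D) (h : seg s q x y)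
    (hxy : x ≠ y) : gap s x = q (s y) ∧
      ∃ x' : Fin D, (x' : ℕ) = (x : ℕ) + q (s y) ∧ seg s q x' y := by
  obtain ⟨h1, h2, h3, h4⟩ := h
  have hlt : x < y := lt_of_le_of_ne h3 hxy
  have hnc : ¬ cuts s q x := h4 x (le_refl _) hlt h2
  rw [cuts, not_or, not_not, not_le] at hnc
  obtain ⟨n1, n2⟩ := hnc
  rw [h2] at n1
  refine ⟨n1, ?_⟩
  obtain ⟨g1, g2, ⟨z, hz, hsz⟩, g4⟩ := gap_spec s x
  rw [Nat.mod_eq_of_lt n2] at hz
  have hlt' : (x : ℕ) < y := hlt
  have hle : gap s x ≤ (y : ℕ) - x := g4 _ (by omega) y (by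
    rw [Nat.mod_eq_of_lt (by have := y.2; omega)]
    omega) h2.symm
  refine ⟨z, by rw [hz, n1], h1, hsz.trans h2, ?_, fun w hw1 hw2 hw3 => h4 w ?_ hw2 hw3⟩
  · rw [Fin.le_def]; omega
  · rw [Fin.le_def] at hw1 ⊢; omega
-- END seg_step

-- BEGIN seg_ap
private theorem seg_ap_down (J : Finset ℕ) (h0 : J.Nonempty) (hd : ∀ j ∈ J, ∀ k ≤ j, k ∈ J) :
    J = range J.card := by
  have h1 : J = range (J.max' h0 + 1) := by
    ext k
    rw [mem_range]
    constructor
    · intro hk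
      exact Nat.lt_succ_of_le (J.le_max' k hk)
    · intro hk
      exact hd _ (J.max'_mem h0) k (Nat.le_of_lt_succ hk)
  have h2 : J.card = J.max' h0 + 1 := by
    conv_lhs => rw [h1]
    exact card_range _
  rw [h2]
  exact h1

/-- C7. The segment is an arithmetic progression. (C6 and induction: every element is
`y - j q` and then all `y - j' q`, `j' ≤ j`, are elements; `1 ≤ q`; so `{j | y - j q ∈ seg}` is
`range` of its cardinality `sgn`.) -/
theorem seg_ap {D n : ℕ} (s : Fin D → Fin n) (q : Fin n → ℕ) (hq : ∀ i, 1 ≤ q i) (y : Fin D)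
    (hy : cuts s q y) : 1 ≤ sgn s q y ∧ (sgn s q y - 1) * q (s y) ≤ (y : ℕ) ∧
      ∀ x : Fin D, seg s q x y ↔ ∃ j < sgn s q y, (x : ℕ) + j * q (s y) = (y : ℕ) := by
  have hQ : 1 ≤ q (s y) := hq _
  have hyy : seg s q y y := ⟨hy, rfl, le_rfl, fun z hz hz' _ => absurd hz' (not_lt.2 hz)⟩
  have hle : ∀ x, seg s q x y → (x : ℕ) ≤ y := fun x hx => hx.2.2.1
  have hA : ∀ (t : ℕ) (x : Fin D), (y : ℕ) - x ≤ t → seg s q x y →
      ∃ j, (x : ℕ) + j * q (s y) = y := by
    intro t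
    induction t with
    | zero =>
      intro x hx hs
      have h1 := hle x hs
      exact ⟨0, by rw [Nat.zero_mul]; omega⟩
    | succ t ih =>
      intro x hx hs
      by_cases hxy : x = y
      · exact ⟨0, by rw [hxy, Nat.zero_mul, Nat.add_zero]⟩
      · obtain ⟨_, x', hx', hs'⟩ := seg_step s q x y hs hxy
        have h1 := hle x' hs'
        obtain ⟨j, hj⟩ := ih x' (by omega) hs'
        exact ⟨j + 1, by rw [Nat.succ_mul]; omega⟩
  have hB : ∀ (j : ℕ) (x : Fin D), seg s q x y → (x : ℕ) + j * q (s y) = y →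
      ∀ k ≤ j, ∃ x' : Fin D, (x' : ℕ) + k * q (s y) = y ∧ seg s q x' y := by
    intro j
    induction j with
    | zero =>
      intro x hs hx k hk
      have hk0 : k = 0 := by omega
      subst hk0
      exact ⟨x, hx, hs⟩
    | succ j ih =>
      intro x hs hx k hk
      rcases Nat.lt_or_ge j k with h1 | h1
      · have hk0 : k = j + 1 := by omega
        subst hk0
        exact ⟨x, hx, hs⟩
      · rw [Nat.succ_mul] at hx
        have hxy : x ≠ y := by
          intro h2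
          rw [h2] at hx
          omega
        obtain ⟨_, x', hx', hs'⟩ := seg_step s q x y hs hxy
        exact ih x' hs' (by omega) k h1
  set S : Finset (Fin D) := univ.filter fun x => seg s q x y with hS
  have hmem : ∀ x, x ∈ S ↔ seg s q x y := fun x => by
    rw [hS, mem_filter]
    exact ⟨fun h => h.2, fun h => ⟨mem_univ x, h⟩⟩
  have hsgn : sgn s q y = S.card := rfl
  set g : Fin D → ℕ := fun x => ((y : ℕ) - x) / q (s y) with hg
  have hgx : ∀ x ∈ S, (x : ℕ) + g x * q (s y) = y := by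
    intro x hx
    obtain ⟨j, hj⟩ := hA _ x le_rfl ((hmem x).1 hx)
    have h1 : g x = j := by
      rw [hg]
      beta_reduce
      rw [show (y : ℕ) - x = j * q (s y) by omega]
      exact Nat.mul_div_cancel _ hQ
    rw [h1, hj]
  have hgj : ∀ x ∈ S, ∀ j, (x : ℕ) + j * q (s y) = y → g x = j := by
    intro x hx j hj
    have h1 := hgx x hx
    have h2 : g x * q (s y) = j * q (s y) := by omega
    exact Nat.eq_of_mul_eq_mul_right hQ h2
  have hcard : (S.image g).card = S.card := by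
    refine card_image_of_injOn fun x hx x' hx' h => ?_
    have h1 := hgx x hx
    have h2 := hgx x' hx'
    rw [h] at h1
    apply Fin.ext
    omega
  have hJ : S.image g = range S.card := by
    rw [← hcard]
    refine seg_ap_down _ ⟨g y, mem_image_of_mem g ((hmem y).2 hyy)⟩ ?_
    intro j hj k hk
    obtain ⟨x, hx, rfl⟩ := mem_image.1 hj
    obtain ⟨x', hx', hs'⟩ := hB _ x ((hmem x).1 hx) (hgx x hx) k hk
    exact mem_image.2 ⟨x', (hmem x').2 hs', hgj x' ((hmem x').2 hs') k hx'⟩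
  have hex : ∀ j < S.card, ∃ x ∈ S, (x : ℕ) + j * q (s y) = y := by
    intro j hj
    have h1 : j ∈ S.image g := by
      rw [hJ]
      exact mem_range.2 hj
    obtain ⟨x, hx, rfl⟩ := mem_image.1 h1
    exact ⟨x, hx, hgx x hx⟩
  have hpos : 1 ≤ S.card := card_pos.2 ⟨y, (hmem y).2 hyy⟩
  rw [hsgn]
  refine ⟨hpos, ?_, fun x => ⟨fun hx => ?_, ?_⟩⟩
  · obtain ⟨x, _, hx⟩ := hex (S.card - 1) (by omega)
    omega
  · have hx' := (hmem x).2 hx
    refine ⟨g x, ?_, hgx x hx'⟩
    rw [← mem_range, ← hJ]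
    exact mem_image_of_mem g hx'
  · rintro ⟨j, hj, hxj⟩
    obtain ⟨x', hx', hxj'⟩ := hex j hj
    have h1 : x = x' := by
      apply Fin.ext
      omega
    rw [h1]
    exact (hmem x').1 hx'
-- END seg_ap

-- BEGIN seg_first
/-- C8. The next copy `x'` of a cut `y` is the first element of its segment. (Otherwise
`x' = x'' + q (s y')` with `x''` in the segment of `y'`, `x''` no cut, C6, C7; the next copy of `x''`
is `x'`. Two copies with the same next copy are equal: C. G2 `gap_cover` uniqueness with the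
position before `x'`, or directly by G1; but `y` is a cut.) -/
theorem seg_first {D n : ℕ} (s : Fin D → Fin n) (q : Fin n → ℕ) (hq : ∀ i, 1 ≤ q i)
    (y x' y' : Fin D) (hy : cuts s q y) (hx : (x' : ℕ) = ((y : ℕ) + gap s y) % D)
    (h : seg s q x' y') : (x' : ℕ) + (sgn s q y' - 1) * q (s y') = (y' : ℕ) := by
  obtain ⟨a1, a2, a3⟩ := seg_ap s q hq y' h.1
  obtain ⟨j, hj, hj'⟩ := (a3 x').1 h
  by_cases hc : j = sgn s q y' - 1
  · rw [← hc]; exact hj'
  exfalso
  have hj1 : j + 1 < sgn s q y' := by omega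
  have h1 : (j + 1) * q (s y') ≤ (sgn s q y' - 1) * q (s y') := Nat.mul_le_mul_right _ (by omega)
  have h2 : (j + 1) * q (s y') = j * q (s y') + q (s y') := by ring
  have hle : q (s y') ≤ (x' : ℕ) := by omega
  have hq' := hq (s y')
  set x'' : Fin D := ⟨(x' : ℕ) - q (s y'), by have := x'.2; omega⟩ with hx''
  have hseg : seg s q x'' y' := (a3 x'').2 ⟨j + 1, hj1, by
    show (x' : ℕ) - q (s y') + (j + 1) * q (s y') = _
    omega⟩
  have hne : x'' ≠ y' := fun he => by
    have := congrArg Fin.val he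
    simp only [hx''] at this
    omega
  obtain ⟨s1, -⟩ := seg_step s q x'' y' hseg hne
  have hncut : ¬ cuts s q x'' := hseg.2.2.2 x'' (le_refl _) (lt_of_le_of_ne hseg.2.2.1 hne) hseg.2.1
  -- `y` and `x''` are copies of the same model, and the position before `x'` belongs to both
  have hsx : s x' = s y := by
    obtain ⟨-, -, ⟨z, hz, hsz⟩, -⟩ := gap_spec s y
    have : z = x' := Fin.ext (hz.trans hx.symm)
    rw [← this]; exact hsz
  have hD : 0 < D := by have := x'.2; omega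
  have hgy := (gap_spec s y).1
  have hgx := (gap_spec s x'').1
  have e1 : ((x'' : ℕ) + (gap s x'' - 1)) % D = (x' : ℕ) - 1 := by
    rw [s1]
    have h3 : (x'' : ℕ) = (x' : ℕ) - q (s y') := rfl
    rw [h3, Nat.mod_eq_of_lt (by have := x'.2; omega)]
    omega
  have e2 : ((y : ℕ) + (gap s y - 1)) % D = (x' : ℕ) - 1 := by
    have h3 : (y : ℕ) + gap s y = ((y : ℕ) + (gap s y - 1)) + 1 := by omega
    rw [h3, Nat.add_mod] at hx
    have h4 := Nat.mod_lt ((y : ℕ) + (gap s y - 1)) hD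
    set r := ((y : ℕ) + (gap s y - 1)) % D
    rcases Nat.lt_or_ge 1 D with hD1 | hD1
    · rw [Nat.mod_eq_of_lt hD1] at hx
      rcases Nat.lt_or_ge (r + 1) D with h5 | h5
      · rw [Nat.mod_eq_of_lt h5] at hx
        omega
      · have : r + 1 = D := by omega
        rw [this, Nat.mod_self] at hx
        omega
    · have := x'.2
      omega
  have hu := (gap_cover s (s y) ⟨y, rfl⟩ ⟨(x' : ℕ) - 1, by have := x'.2; omega⟩).unique
    (y₁ := (x'', gap s x'' - 1)) (y₂ := (y, gap s y - 1))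
    ⟨by rw [← hsx, h.2.1]; exact hseg.2.1, by simp only; omega, e1⟩
    ⟨rfl, by simp only; omega, e2⟩
  rw [Prod.mk.injEq] at hu
  rw [hu.1] at hncut
  exact hncut hy
-- END seg_first

-- BEGIN seg_count
/-- C9. (Fibers of `x ↦` its cut, C5.) -/
theorem seg_count {D n : ℕ} (s : Fin D → Fin n) (q : Fin n → ℕ) (i : Fin n) :
    ∑ y ∈ univ.filter (fun y => cuts s q y), (if s y = i then sgn s q y else 0) =
      (univ.filter fun x => s x = i).card := by
  classical
  have hf : ∀ x, ∃ y, seg s q x y ∧ ∀ y', seg s q x y' → y' = y := fun x => by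
    obtain ⟨y, hy, hu⟩ := seg_unique s q x
    exact ⟨y, hy, hu⟩
  choose f hf1 hf2 using hf
  have h1 : (univ.filter fun x => s x = i).card =
      ∑ y ∈ univ.filter (fun y => cuts s q y),
        ((univ.filter fun x => s x = i).filter fun x => f x = y).card := by
    apply Finset.card_eq_sum_card_fiberwise
    intro x _
    rw [Finset.mem_coe, Finset.mem_filter]
    exact ⟨Finset.mem_univ _, (hf1 x).1⟩
  rw [h1]
  refine Finset.sum_congr rfl fun y hy => ?_
  by_cases hyi : s y = i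
  · rw [if_pos hyi]
    unfold sgn
    congr 1
    ext x
    simp only [Finset.mem_filter, Finset.mem_univ, true_and]
    constructor
    · intro hx
      exact ⟨hx.2.1.trans hyi, (hf2 x y hx).symm⟩
    · rintro ⟨_, hx⟩
      rw [← hx]
      exact hf1 x
  · rw [if_neg hyi]
    symm
    rw [Finset.card_eq_zero, Finset.filter_eq_empty_iff]
    intro x hx hxy
    rw [Finset.mem_filter] at hx
    apply hyi
    rw [← hxy, ← (hf1 x).2.1]
    exact hx.2
-- END seg_count

-- BEGIN seg_cost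
theorem seg_cost_self {D n : ℕ} (s : Fin D → Fin n) (q : Fin n → ℕ) (y : Fin D) (hy : cuts s q y) :
    seg s q y y :=
  ⟨hy, rfl, le_rfl, fun _ h1 h2 _ _ => absurd h2 (not_lt.2 h1)⟩

theorem seg_cost_fib {D n : ℕ} (s : Fin D → Fin n) (q : Fin n → ℕ) (y : Fin D) (hy : cuts s q y) :
    ∑ x ∈ univ.filter (fun x => seg s q x y), gap s x * gap s x =
      (sgn s q y - 1) * (q (s y) * q (s y)) + gap s y * gap s y := by
  have hmem : y ∈ univ.filter (fun x => seg s q x y) :=
    mem_filter.2 ⟨mem_univ y, seg_cost_self s q y hy⟩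
  rw [← Finset.sum_erase_add _ _ hmem]
  congr 1
  have h1 : ∀ x ∈ (univ.filter (fun x => seg s q x y)).erase y,
      gap s x * gap s x = q (s y) * q (s y) := by
    intro x hx
    obtain ⟨hne, hx'⟩ := mem_erase.1 hx
    rw [(seg_step s q x y (mem_filter.1 hx').2 hne).1]
  rw [Finset.sum_congr rfl h1, Finset.sum_const, Finset.card_erase_of_mem hmem, smul_eq_mul]
  rfl

/-- C10. (Fibers of `x ↦` its cut, C5; `gap s x = q (s y)` for `x ≠ y`, C6.) -/
theorem seg_cost {D n : ℕ} (s : Fin D → Fin n) (q : Fin n → ℕ) (hq : ∀ i, 1 ≤ q i) :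
    ∑ y ∈ univ.filter (fun y => cuts s q y),
      ((sgn s q y - 1) * (q (s y) * q (s y)) + gap s y * gap s y) = ∑ x, gap s x * gap s x := by
  choose c hc using fun x => (seg_unique s q x).exists
  have huniq : ∀ x y, seg s q x y → c x = y := fun x y h =>
    (seg_unique s q x).unique (hc x) h
  have hmaps : ∀ x ∈ (univ : Finset (Fin D)), c x ∈ univ.filter (fun y => cuts s q y) :=
    fun x _ => mem_filter.2 ⟨mem_univ _, (hc x).1⟩
  rw [← Finset.sum_fiberwise_of_maps_to hmaps]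
  apply Finset.sum_congr rfl
  intro y hy
  rw [← seg_cost_fib s q y (mem_filter.1 hy).2]
  apply Finset.sum_congr _ (fun _ _ => rfl)
  apply Finset.filter_congr
  intro x _
  exact ⟨fun h => huniq x y h, fun h => h ▸ hc x⟩
-- END seg_cost

-- BEGIN cst_of
/-- C11. The cost inequality in `ℕ`. (`rtv_eq`; multiply by `b ∏ d i`.) -/
theorem cst_of {n : ℕ} (d : Fin n → ℕ) (hd : ∀ i, 0 < d i) (s : Fin (∑ i, d i) → Fin n)
    (hs : Feasible d s) (a b : ℕ) (hb : 0 < b) (h : rtv d s ≤ (a : ℚ) / b) :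
    b * (∏ i ∈ range n, dN d i) * ∑ x, gap s x * gap s x ≤
    a * (∏ i ∈ range n, dN d i) + b * ((∑ i ∈ range n, dN d i) * (∑ i ∈ range n, dN d i)) *
      ∑ i ∈ range n, (∏ i ∈ range n, dN d i) / dN d i := by
  rw [sum_dN, prod_dN]
  have hP : 0 < ∏ i, d i := Finset.prod_pos fun i _ => hd i
  have h4 : ((∑ i ∈ range n, (∏ i, d i) / dN d i : ℕ) : ℚ) =
      (∏ i, d i : ℕ) * ∑ i, 1 / (d i : ℚ) := by
    rw [Finset.sum_range, Nat.cast_sum, Finset.mul_sum]
    refine Finset.sum_congr rfl fun i _ => ?_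
    rw [dN, dif_pos i.2, Nat.cast_div (Finset.dvd_prod_of_mem d (mem_univ i))
      (by exact_mod_cast (hd i).ne')]
    ring
  have hbQ : (0 : ℚ) < b := by exact_mod_cast hb
  have hPQ : (0 : ℚ) < (∏ i, d i : ℕ) := by exact_mod_cast hP
  have h6 : ∑ x, (gap s x : ℚ) ^ 2 = ((∑ x, gap s x * gap s x : ℕ) : ℚ) := by
    rw [Nat.cast_sum]
    refine Finset.sum_congr rfl fun x _ => ?_
    rw [Nat.cast_mul, sq]
  have h7 : ∑ i, ((∑ i, d i : ℕ) : ℚ) ^ 2 / (d i : ℚ) =
      ((∑ i, d i : ℕ) : ℚ) ^ 2 * ∑ i, 1 / (d i : ℚ) := by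
    rw [Finset.mul_sum]
    refine Finset.sum_congr rfl fun i _ => ?_
    ring
  rw [rtv_eq d hd s hs, h6, h7, le_div_iff₀ hbQ] at h
  have h5 : ((b * (∏ i, d i) * ∑ x, gap s x * gap s x : ℕ) : ℚ) ≤
      ((a * (∏ i, d i) + b * ((∑ i, d i) * (∑ i, d i)) *
        ∑ i ∈ range n, (∏ i, d i) / dN d i : ℕ) : ℚ) := by
    rw [Nat.cast_mul, Nat.cast_mul, Nat.cast_add, Nat.cast_mul, Nat.cast_mul, Nat.cast_mul,
      Nat.cast_mul, h4]
    have h8 := mul_le_mul_of_nonneg_left h hPQ.le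
    linarith
  exact_mod_cast h5
-- END cst_of

-- BEGIN dis_of
/-- C12. The pair certificates, chosen for all pairs at once. (`ap_complete`, `choose`; outside of
the domain `0`.) -/
theorem dis_of (R D : ℕ) (A E M : ℕ → ℕ) (hA : ∀ k, A k ≤ D) (hE : ∀ k, E k ≤ D)
    (hE1 : ∀ k < R, M k ≠ 0 → 1 ≤ E k)
    (h : ∀ k < R, ∀ l < R, k < l → ∀ j < M k, ∀ j' < M l, A k + j * E k ≠ A l + j' * E l) :
    ∃ G U V Z : ℕ → ℕ → ℕ, (∀ k < R, ∀ l < R, k < l → M k ≠ 0 → M l ≠ 0 →
      apC (A k) (E k) (M k) (A l) (E l) (M l) (G k l) (U k l) (V k l) (Z k l)) ∧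
      ∀ k l, G k l ≤ D ∧ U k l ≤ D ∧ V k l ≤ D ∧ Z k l ≤ D + D + D * D := by
  have key : ∀ k l, ∃ g u v z, (k < R → l < R → k < l → M k ≠ 0 → M l ≠ 0 →
      apC (A k) (E k) (M k) (A l) (E l) (M l) g u v z) ∧ g ≤ D ∧ u ≤ D ∧ v ≤ D ∧
        z ≤ D + D + D * D := by
    intro k l
    by_cases hc : k < R ∧ l < R ∧ k < l ∧ M k ≠ 0 ∧ M l ≠ 0
    · obtain ⟨c1, c2, c3, c4, c5⟩ := hc
      obtain ⟨g, u, v, z, h1, h2, h3, h4, h5⟩ := ap_complete (A k) (E k) (M k) (A l) (E l) (M l)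
        (hE1 k c1 c4) (hE1 l c2 c5) (by omega) (by omega) (h k c1 l c2 c3)
      refine ⟨g, u, v, z, fun _ _ _ _ _ => h1, h2.trans (hE k), h3.trans (hE l), h4.trans (hE k),
        h5.trans ?_⟩
      have h6 : E k * E l ≤ D * D := Nat.mul_le_mul (hE k) (hE l)
      have := hA k
      have := hA l
      omega
    · exact ⟨0, 0, 0, 0, fun c1 c2 c3 c4 c5 => absurd ⟨c1, c2, c3, c4, c5⟩ hc, by omega, by omega,
        by omega, by omega⟩
  choose G U V Z hG using key
  exact ⟨G, U, V, Z, fun k hk l hl hkl hM hM' => (hG k l).1 hk hl hkl hM hM',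
    fun k l => (hG k l).2⟩
-- END dis_of

-- BEGIN complete
private def complete_up {c : ℕ} (f : Fin c → ℕ) (k : ℕ) : ℕ := if h : k < c then f ⟨k, h⟩ else 0

private theorem complete_up_lt {c : ℕ} (f : Fin c → ℕ) (k : Fin c) :
    complete_up f (k : ℕ) = f k := by
  rw [complete_up, dif_pos k.2]

private theorem complete_up_ge {c : ℕ} (f : Fin c → ℕ) (k : ℕ) (h : c ≤ k) :
    complete_up f k = 0 := by
  rw [complete_up, dif_neg (by omega)]

private theorem complete_sum {c R : ℕ} (hc : c ≤ R) (F : ℕ → ℕ) (h0 : ∀ k, c ≤ k → F k = 0) :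
    ∑ k ∈ range R, F k = ∑ k : Fin c, F k := by
  rw [← Finset.sum_range]
  symm
  apply Finset.sum_subset
  · intro k hk
    rw [mem_range] at hk ⊢
    omega
  · intro k _ hk
    exact h0 k (by rw [mem_range] at hk; omega)

/-- C13. Number the cuts (`Finset.equivFin`, `k < #cuts ≤ R`): `I k = s y`, `A k = y - (m - 1) q`,
`E k = q`, `M k = m = sgn`, `H k = gap s y`, `q = rnd D (d (s y))`; all functions `0` for
`k ≥ #cuts`. (C1 - C12.) -/
theorem complete {n : ℕ} (d : Fin n → ℕ) (hd : ∀ i, 0 < d i) (s : Fin (∑ i, d i) → Fin n)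
    (hs : Feasible d s) (a b Q R : ℕ) (hb : 0 < b) (h : rtv d s ≤ (a : ℚ) / b)
    (hQ : (a : ℚ) / b ≤ Q) (hR : 4 * Q + n ≤ R) :
    ∃ I A E M H : ℕ → ℕ, ∃ G U V Z : ℕ → ℕ → ℕ, Chk n R (dN d) I A E M H G U V Z a b ∧
      (∀ k, I k ≤ ∑ i, d i ∧ A k ≤ ∑ i, d i ∧ E k ≤ ∑ i, d i ∧ M k ≤ ∑ i, d i ∧
        H k ≤ ∑ i, d i) ∧
      ∀ k l, G k l ≤ ∑ i, d i ∧ U k l ≤ ∑ i, d i ∧ V k l ≤ ∑ i, d i ∧
        Z k l ≤ ∑ i, d i + ∑ i, d i + (∑ i, d i) * ∑ i, d i := by
  have hdD : ∀ i, d i ≤ (∑ i, d i) := fun i =>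
    Finset.single_le_sum (f := d) (fun _ _ => Nat.zero_le _) (mem_univ i)
  set q : Fin n → ℕ := fun i => rnd (∑ i, d i) (d i) with hqdef
  have hq1 : ∀ i, 1 ≤ q i := fun i => (rnd_spec (∑ i, d i) (d i) (hd i) (hdD i)).1
  have hqD : ∀ i, q i ≤ (∑ i, d i) := fun i => (rnd_spec (∑ i, d i) (d i) (hd i) (hdD i)).2.1
  set Y : Finset (Fin (∑ i, d i)) := univ.filter (fun y => cuts s q y) with hY
  have hYc : Y.card ≤ R := (cuts_card d s hs Q (h.trans hQ)).trans hR
  set e := Y.equivFin.symm with he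
  set y : Fin Y.card → Fin (∑ i, d i) := fun k => (e k : Fin (∑ i, d i)) with hy
  have hyY : ∀ k, y k ∈ Y := fun k => (e k).2
  have hcut : ∀ k, cuts s q (y k) := fun k => by
    have := hyY k
    rw [hY, mem_filter] at this
    exact this.2
  have hinj : ∀ k l, y k = y l → k = l := fun k l hkl => e.injective (Subtype.ext hkl)
  have hsurj : ∀ z : Fin (∑ i, d i), cuts s q z → ∃ k, y k = z := fun z hz =>
    ⟨e.symm ⟨z, by rw [hY, mem_filter]; exact ⟨mem_univ _, hz⟩⟩, by simp [hy]⟩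
  have hsumY : ∀ g : Fin (∑ i, d i) → ℕ, ∑ k : Fin Y.card, g (y k) = ∑ z ∈ Y, g z := fun g => by
    rw [← Finset.sum_coe_sort Y g]
    exact Equiv.sum_comp e (fun z : Y => g z)
  have hap := fun k => seg_ap s q hq1 (y k) (hcut k)
  set I : ℕ → ℕ := complete_up fun k => (s (y k) : ℕ) with hI
  set A : ℕ → ℕ := complete_up fun k => (y k : ℕ) - (sgn s q (y k) - 1) * q (s (y k)) with hA
  set E : ℕ → ℕ := complete_up fun k => q (s (y k)) with hE
  set M : ℕ → ℕ := complete_up fun k => sgn s q (y k) with hM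
  set H : ℕ → ℕ := complete_up fun k => gap s (y k) with hH
  have hMk : ∀ k, M k ≠ 0 → k < Y.card := fun k hk => by
    by_contra hc
    exact hk (complete_up_ge _ _ (by omega))
  have hI' : ∀ k : Fin Y.card, I k = (s (y k) : ℕ) := fun k => complete_up_lt _ k
  have hA' : ∀ k : Fin Y.card, A k = (y k : ℕ) - (sgn s q (y k) - 1) * q (s (y k)) :=
    fun k => complete_up_lt _ k
  have hE' : ∀ k : Fin Y.card, E k = q (s (y k)) := fun k => complete_up_lt _ k
  have hM' : ∀ k : Fin Y.card, M k = sgn s q (y k) := fun k => complete_up_lt _ k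
  have hH' : ∀ k : Fin Y.card, H k = gap s (y k) := fun k => complete_up_lt _ k
  have hend : ∀ k : Fin Y.card, A k + (M k - 1) * E k = (y k : ℕ) := fun k => by
    rw [hA', hM', hE']
    have := (hap k).2.1
    omega
  have hnD : n ≤ (∑ i, d i) := by
    have : ∑ i : Fin n, 1 ≤ ∑ i, d i := Finset.sum_le_sum fun i _ => hd i
    simpa using this
  have hsD : (∑ i ∈ range n, dN d i) = (∑ i, d i) := sum_dN d
  have hbd : ∀ k, I k ≤ (∑ i, d i) ∧ A k ≤ (∑ i, d i) ∧ E k ≤ (∑ i, d i) ∧ M k ≤ (∑ i, d i) ∧ H k ≤ (∑ i, d i) := fun k => by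
    by_cases hk : k < Y.card
    · have h1 := hI' ⟨k, hk⟩
      have h2 := hA' ⟨k, hk⟩
      have h3 := hE' ⟨k, hk⟩
      have h4 := hM' ⟨k, hk⟩
      have h5 := hH' ⟨k, hk⟩
      simp only at h1 h2 h3 h4 h5
      refine ⟨?_, ?_, ?_, ?_, ?_⟩
      · rw [h1]
        have := (s (y ⟨k, hk⟩)).2
        omega
      · rw [h2]
        have := (y ⟨k, hk⟩).2
        omega
      · rw [h3]; exact hqD _
      · rw [h4, sgn]
        refine (Finset.card_le_univ _).trans ?_
        rw [Fintype.card_fin]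
      · rw [h5]; exact (gap_spec s _).2.1
    · have hk' : Y.card ≤ k := by omega
      rw [hI, hA, hE, hM, hH, complete_up_ge _ _ hk', complete_up_ge _ _ hk', complete_up_ge _ _ hk',
        complete_up_ge _ _ hk', complete_up_ge _ _ hk']
      simp
  have hmem : ∀ (k : Fin Y.card) (j : ℕ), j < M k → ∃ x : Fin (∑ i, d i), (x : ℕ) = A k + j * E k ∧
      seg s q x (y k) := fun k j hj => by
    have h1 := hend k
    have h2 := (y k).2
    have h3 : j * E k ≤ (M k - 1) * E k := Nat.mul_le_mul_right _ (by omega)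
    refine ⟨⟨A k + j * E k, by omega⟩, rfl, ?_⟩
    rw [(hap k).2.2]
    refine ⟨M k - 1 - j, by rw [hM'] at hj ⊢; omega, ?_⟩
    rw [← hE']
    show A k + j * E k + (M k - 1 - j) * E k = (y k : ℕ)
    have h4 : j * E k + (M k - 1 - j) * E k = (M k - 1) * E k := by
      rw [← add_mul]
      congr 1
      omega
    omega
  obtain ⟨G, U, V, Z, hG, hG'⟩ := dis_of R (∑ i, d i) A E M (fun k => (hbd k).2.1) (fun k => (hbd k).2.2.1)
    (fun k _ hk => by
      have := hE' ⟨k, hMk k hk⟩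
      simp only at this
      rw [this]
      exact hq1 _)
    (fun k _ l _ hkl j hj j' hj' heq => by
      obtain ⟨x, hx, hxs⟩ := hmem ⟨k, hMk k (by omega)⟩ j hj
      obtain ⟨x', hx', hxs'⟩ := hmem ⟨l, hMk l (by omega)⟩ j' hj'
      have hxx : x = x' := Fin.ext (by rw [hx, hx']; exact heq)
      subst hxx
      have := (seg_unique s q x).unique hxs hxs'
      have := congrArg Fin.val (hinj _ _ this)
      simp only at this
      omega)
  refine ⟨I, A, E, M, H, G, U, V, Z, ⟨?_, ?_, ?_, hG, ?_⟩, hbd, hG'⟩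
  · intro k _ hk
    have h0 := hMk k hk
    have h1 := hI' ⟨k, h0⟩
    have h3 := hE' ⟨k, h0⟩
    have h5 := hH' ⟨k, h0⟩
    have h6 := hend ⟨k, h0⟩
    simp only at h1 h3 h5 h6
    refine ⟨by rw [h1]; exact (s _).2, by rw [h3]; exact hq1 _,
      by rw [h5]; exact (gap_spec s _).1, ?_⟩
    rw [h6, hsD]
    exact (y _).2
  · intro k _ hk
    have h0 := hMk k hk
    have h1 := hI' ⟨k, h0⟩
    have h5 := hH' ⟨k, h0⟩
    have h6 := hend ⟨k, h0⟩
    simp only at h1 h5 h6
    obtain ⟨x', hx', hsx'⟩ := (gap_spec s (y ⟨k, h0⟩)).2.2.1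
    obtain ⟨y', hy', -⟩ := seg_unique s q x'
    obtain ⟨l, hl⟩ := hsurj y' hy'.1
    have hf := seg_first s q hq1 _ x' y' (hcut ⟨k, h0⟩) hx' hy'
    have hMl : 1 ≤ M l := by rw [hM' l]; exact (hap l).1
    refine ⟨l, lt_of_lt_of_le l.2 hYc, by omega, ?_, ?_⟩
    · rw [hI' l, h1, hl, ← hy'.2.1, hsx']
    · rw [h6, h5, hsD, ← hx', hA' l, hl]
      omega
  · intro i hi
    rw [complete_sum hYc]
    · have h1 : ∀ k : Fin Y.card, (if I k = i then M k else 0) =
          if s (y k) = ⟨i, hi⟩ then sgn s q (y k) else 0 := fun k => by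
        rw [hI', hM']
        by_cases hc : s (y k) = ⟨i, hi⟩
        · rw [if_pos hc, if_pos (by rw [hc])]
        · rw [if_neg hc, if_neg (fun h' => hc (Fin.ext h'))]
      rw [Finset.sum_congr rfl fun k _ => h1 k,
        hsumY fun z => if s z = ⟨i, hi⟩ then sgn s q z else 0, hY, seg_count, hs ⟨i, hi⟩, dN,
        dif_pos hi]
    · intro k hk
      rw [hM, complete_up_ge _ _ hk, ite_self]
  · have h1 := cst_of d hd s hs a b hb h
    have h2 : ∑ k ∈ range R, (if M k = 0 then 0 else (M k - 1) * (E k * E k) + H k * H k) =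
        ∑ x, gap s x * gap s x := by
      rw [complete_sum hYc]
      · have h3 : ∀ k : Fin Y.card, (if M k = 0 then 0 else (M k - 1) * (E k * E k) + H k * H k) =
            (sgn s q (y k) - 1) * (q (s (y k)) * q (s (y k))) + gap s (y k) * gap s (y k) :=
          fun k => by
            rw [hM', hE', hH', if_neg]
            have := (hap k).1
            omega
        rw [Finset.sum_congr rfl fun k _ => h3 k,
          hsumY fun z => (sgn s q z - 1) * (q (s z) * q (s z)) + gap s z * gap s z, hY,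
          seg_cost s q hq1]
      · intro k hk
        rw [hM, complete_up_ge _ _ hk, if_pos rfl]
    rw [h2]
    exact h1
-- END complete

end Pool.Agent.Rtv
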