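import Pool.Agent.Rtv.Enc
import Pool.Agent.PRT.BDiv
import Pool.Agent.PRT.BPow
import Pool.Agent.PRT.BUn
import Pool.Agent.NPC.More

/-!
# RTV PT: polynomial time
-/

set_option autoImplicit false

namespace Pool.Agent.Rtv

open Pool.Agent.PRT Pool.NPC Pool.NPC.Enc Pool.NPC.Tr Polynomial

variable {α β γ : Type} [Enc α] [Enc β] [Enc γ]

/-- polynomial time predicates -/
def PP (P : α → Prop) : Prop := PT fun a => @decide (P a) (Classical.dec _)

theorem PP.of {P : α → Prop} [DecidablePred P] (h : PT fun a => decide (P a)) : PP P :=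
  h.congr fun a => by
    by_cases hp : P a <;> simp [hp]

theorem PP.congr {P P' : α → Prop} (h : PP P) (h' : ∀ a, P' a ↔ P a) : PP P' := by
  have : P' = P := funext fun a => propext (h' a)
  rw [this]; exact h

theorem PP.comp {P : β → Prop} {f : α → β} (h : PP P) (hf : PT f) : PP fun a => P (f a) :=
  PT.comp h hf

theorem PP.and {P P' : α → Prop} (h : PP P) (h' : PP P') : PP fun a => P a ∧ P' a :=
  (PT.and h h').congr fun a => by
    by_cases hp : P a <;> by_cases hp' : P' a <;> simp [hp, hp']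

theorem PP.or {P P' : α → Prop} (h : PP P) (h' : PP P') : PP fun a => P a ∨ P' a :=
  (PT.or h h').congr fun a => by
    by_cases hp : P a <;> by_cases hp' : P' a <;> simp [hp, hp']

theorem PP.not {P : α → Prop} (h : PP P) : PP fun a => ¬ P a :=
  (PT.not h).congr fun a => by
    by_cases hp : P a <;> simp [hp]

theorem PP.imp {P P' : α → Prop} (h : PP P) (h' : PP P') : PP fun a => P a → P' a :=
  (PP.or (PP.not h) h').congr fun a => by tauto

theorem PP.le {f g : α → ℕ} (hf : BT f) (hg : BT g) : PP fun a => f a ≤ g a := PP.of (BT.le hf hg)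

theorem PP.lt {f g : α → ℕ} (hf : BT f) (hg : BT g) : PP fun a => f a < g a := PP.of (BT.lt hf hg)

theorem PP.eq {f g : α → ℕ} (hf : BT f) (hg : BT g) : PP fun a => f a = g a := PP.of (BT.eq hf hg)

theorem PP.ne {f g : α → ℕ} (hf : BT f) (hg : BT g) : PP fun a => f a ≠ g a :=
  PP.not (PP.eq hf hg)

-- BEGIN PP_all
/-- P1. (`PT.all`.) -/
theorem PP.all {n : α → ℕ} {P : α × ℕ → Prop} (hn : PT n) (hP : PP P) :
    PP fun a => ∀ k < n a, P (a, k) :=
  (PT.all hn hP).congr fun a => by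
    rw [Bool.eq_iff_iff, List.all_eq_true]
    simp
-- END PP_all

-- BEGIN PP_ex
/-- P2. (P1, `PP.not`.) -/
theorem PP.ex {n : α → ℕ} {P : α × ℕ → Prop} (hn : PT n) (hP : PP P) :
    PP fun a => ∃ k < n a, P (a, k) :=
  (PP.not (PP.all hn (PP.not hP))).congr fun a => by
    push Not
    rfl
-- END PP_ex

-- BEGIN BT_ite
/-- P3. (`BT.ite`.) -/
theorem BT_ite {P : α → Prop} [DecidablePred P] {f g : α → ℕ} (hP : PP P) (hf : BT f)
    (hg : BT g) : BT fun a => if P a then f a else g a := by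
  have h : PT fun a => decide (P a) := PT.congr hP fun a => by
    by_cases h : P a <;> simp [h]
  exact BT.ite h hf hg
-- END BT_ite

-- BEGIN BT_sum
private theorem BT_sum_rec (f : ℕ → ℕ) (i : ℕ) :
    Nat.rec (motive := fun _ => ℕ) 0 (fun i s => s + f i) i = ∑ k ∈ Finset.range i, f k := by
  induction i with
  | zero => rfl
  | succ i ih =>
    show Nat.rec (motive := fun _ => ℕ) 0 (fun i s => s + f i) i + f i = _
    rw [ih, Finset.sum_range_succ]

/-- P4. (`BT.natRec`; the size of a partial sum is at most `n a + ` the bound for the size of `f`.) -/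
theorem BT_sum {n : α → ℕ} {f : α × ℕ → ℕ} (hn : PT n) (hf : BT f) :
    BT fun a => ∑ k ∈ Finset.range (n a), f (a, k) := by
  obtain ⟨Rn, hRn⟩ := hn.size
  obtain ⟨Rf, hRf⟩ := hf.size
  have hg : BT fun x : α × (ℕ × Bin) => x.2.2.val + f (x.1, x.2.1) :=
    BT.add (BT.ofPT (PT.snd' (PT.snd' PT.id)))
      (BT.comp hf (PT.pair (PT.fst' PT.id) (PT.fst' (PT.snd' PT.id))))
  refine (BT.natRec (z := fun _ => 0) hn (BT.const 0) hg (Rn + Rf.comp (X + Rn)) ?_).congr ?_
  · intro a i hi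
    show Nat.size (Nat.rec (motive := fun _ => ℕ) 0 (fun i s => s + f (a, i)) i) ≤ _
    rw [BT_sum_rec]
    have hna : n a ≤ Rn.eval (sz a) := by simpa using hRn a
    set S := Rf.eval (sz a + Rn.eval (sz a)) with hS
    have h1 : ∀ k ∈ Finset.range i, f (a, k) ≤ 2 ^ S := fun k hk => by
      rw [Finset.mem_range] at hk
      have h2 : Nat.size (f (a, k)) ≤ S := by
        refine (hRf (a, k)).trans (poly_mono _ ?_)
        rw [sz_prod, sz_nat]
        show sz a + k ≤ _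
        omega
      exact ((Nat.lt_size_self _).trans_le (Nat.pow_le_pow_right (by norm_num) h2)).le
    have h3 : ∑ k ∈ Finset.range i, f (a, k) ≤ i * 2 ^ S := by
      have := Finset.sum_le_card_nsmul _ _ _ h1
      simpa using this
    rw [Nat.size_le]
    have h4 : i * 2 ^ S < 2 ^ i * 2 ^ S :=
      (Nat.mul_lt_mul_right (by positivity)).2 Nat.lt_two_pow_self
    rw [← pow_add] at h4
    refine lt_of_le_of_lt h3 (h4.trans_le (Nat.pow_le_pow_right (by norm_num) ?_))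
    rw [eval_add, eval_comp, eval_add, eval_X]
    omega
  · intro a
    exact (BT_sum_rec (fun k => f (a, k)) (n a)).symm
-- END BT_sum

-- BEGIN BT_prod
private theorem BT_prod_rec (f : ℕ → ℕ) (i : ℕ) :
    Nat.rec (motive := fun _ => ℕ) 1 (fun i s => s * f i) i = ∏ k ∈ Finset.range i, f k := by
  induction i with
  | zero => rfl
  | succ i ih =>
    show Nat.rec (motive := fun _ => ℕ) 1 (fun i s => s * f i) i * f i = _
    rw [ih, Finset.prod_range_succ]

/-- P5. (`BT.natRec`; the size of a partial product is at most `1 + n a *` the bound for the size of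
`f`.) -/
theorem BT_prod {n : α → ℕ} {f : α × ℕ → ℕ} (hn : PT n) (hf : BT f) :
    BT fun a => ∏ k ∈ Finset.range (n a), f (a, k) := by
  obtain ⟨Rn, hRn⟩ := hn.size
  obtain ⟨Rf, hRf⟩ := hf.size
  have hg : BT fun x : α × (ℕ × Bin) => x.2.2.val * f (x.1, x.2.1) :=
    BT.mul (BT.ofPT (PT.snd' (PT.snd' PT.id)))
      (BT.comp hf (PT.pair (PT.fst' PT.id) (PT.fst' (PT.snd' PT.id))))
  refine (BT.natRec (z := fun _ => 1) hn (BT.const 1) hg (Rn * Rf.comp (X + Rn) + 1) ?_).congr ?_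
  · intro a i hi
    show Nat.size (Nat.rec (motive := fun _ => ℕ) 1 (fun i s => s * f (a, i)) i) ≤ _
    rw [BT_prod_rec]
    have hna : n a ≤ Rn.eval (sz a) := by simpa using hRn a
    set S := Rf.eval (sz a + Rn.eval (sz a)) with hS
    have h1 : ∀ k ∈ Finset.range i, f (a, k) ≤ 2 ^ S := fun k hk => by
      rw [Finset.mem_range] at hk
      have h2 : Nat.size (f (a, k)) ≤ S := by
        refine (hRf (a, k)).trans (poly_mono _ ?_)
        rw [sz_prod, sz_nat]
        show sz a + k ≤ _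
        omega
      exact ((Nat.lt_size_self _).trans_le (Nat.pow_le_pow_right (by norm_num) h2)).le
    have h3 : ∏ k ∈ Finset.range i, f (a, k) ≤ (2 ^ S) ^ i := by
      have := Finset.prod_le_pow_card _ _ _ h1
      simpa using this
    rw [Nat.size_le]
    rw [← pow_mul] at h3
    refine lt_of_le_of_lt h3 (Nat.pow_lt_pow_right (by norm_num) ?_)
    rw [eval_add, eval_mul, eval_comp, eval_add, eval_X, eval_one, ← hS]
    have := Nat.mul_le_mul_left S (hi.trans hna)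
    rw [mul_comm (Rn.eval (sz a)) S]
    omega
  · intro a
    exact (BT_prod_rec (fun k => f (a, k)) (n a)).symm
-- END BT_prod

-- BEGIN BT_min
/-- P6. (`BT.ite` with `f a ≤ g a`.) -/
theorem BT_min {f g : α → ℕ} (hf : BT f) (hg : BT g) : BT fun a => min (f a) (g a) :=
  (BT_ite (PP.le hf hg) hf hg).congr fun a => by
    by_cases h : f a ≤ g a
    · rw [if_pos h, min_eq_left h]
    · rw [if_neg h, min_eq_right (by omega)]
-- END BT_min

-- BEGIN BT_max
/-- P7. -/
theorem BT_max {f g : α → ℕ} (hf : BT f) (hg : BT g) : BT fun a => max (f a) (g a) :=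
  (BT_ite (PP.le hf hg) hg hf).congr fun a => by
    by_cases h : f a ≤ g a
    · rw [if_pos h, max_eq_right h]
    · rw [if_neg h, max_eq_left (by omega)]
-- END BT_max

-- BEGIN BT_num
/-- P8. (`BT.bval`, `PT.flatMap`, `PT.cons`, `PT.getD`, `PT.mul`, `PT.add`.) -/
theorem BT_num {B k : α → ℕ} {l : α → List Bool} (hB : PT B) (hk : PT k) (hl : PT l) :
    BT fun a => num (B a) (k a) (l a) := by
  have h1 : PT fun y : α × ℕ => [(l y.1).getD (k y.1 * B y.1 + y.2) false] :=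
    PT.cons (PT.getD (PT.comp hl PT.fst) (PT.add (PT.mul (PT.comp hk PT.fst) (PT.comp hB PT.fst))
      PT.snd)) (PT.const [])
  exact BT.bval (PT.flatMap (g := fun y : α × ℕ => [(l y.1).getD (k y.1 * B y.1 + y.2) false])
    hB h1)
-- END BT_num

-- BEGIN PT_lead
/-- P9. (`PT.count`, `PT.all`, `PT.getD`.) -/
theorem PT_lead {l : α → List Bool} (hl : PT l) : PT fun a => lead (l a) := by
  have h2 : PT fun z : (α × ℕ) × ℕ => (l z.1.1).getD z.2 false :=
    PT.getD (PT.comp hl (PT.fst' PT.fst)) PT.snd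
  have h1 : PT fun y : α × ℕ => (List.range (y.2 + 1)).all fun j => (l y.1).getD j false :=
    PT.all (p := fun z : (α × ℕ) × ℕ => (l z.1.1).getD z.2 false) (PT.succ PT.snd) h2
  exact PT.count (p := fun y : α × ℕ =>
    (List.range (y.2 + 1)).all fun j => (l y.1).getD j false) (PT.length hl) h1
-- END PT_lead

-- BEGIN PP_apC
/-- P10. (unfold `apC`; `PP.or`, `PP.and`, `PP.ne`, `BT.mod`, `BT.mul`, `BT.sub`, `BT_min`,
`BT_max`.) -/
theorem PP_apC {a e m a' e' m' g u v z : α → ℕ} (ha : BT a) (he : BT e) (hm : BT m) (ha' : BT a')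
    (he' : BT e') (hm' : BT m') (hg : BT g) (hu : BT u) (hv : BT v) (hz : BT z) :
    PP fun x => apC (a x) (e x) (m x) (a' x) (e' x) (m' x) (g x) (u x) (v x) (z x) := by
  unfold apC
  have h0 : BT fun _ : α => 0 := BT.const 0
  have h1 : BT fun _ : α => 1 := BT.const 1
  refine PP.or ?_ ?_
  · exact PP.and (PP.ne hg h0) (PP.and (PP.eq (BT.mod he hg) h0) (PP.and (PP.eq (BT.mod he' hg) h0)
      (PP.ne (BT.mod ha hg) (BT.mod ha' hg))))
  · exact PP.and (PP.ne hg h0) (PP.and (PP.eq (BT.mul hu he) (BT.add (BT.mul hv he') hg))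
      (PP.and (PP.eq (BT.mod hz he) (BT.mod ha he)) (PP.and (PP.eq (BT.mod hz he') (BT.mod ha' he'))
      (PP.and (PP.le ha hz) (PP.and (PP.le ha' hz)
      (PP.and (PP.lt (BT.mul hg (BT.sub hz (BT_max ha ha'))) (BT.mul he he'))
      (PP.lt (BT_min (BT.add ha (BT.mul (BT.sub hm h1) he))
        (BT.add ha' (BT.mul (BT.sub hm' h1) he'))) hz)))))))
-- END PP_apC

-- BEGIN PP_Chk
private theorem PP_Chk_iff (n R : ℕ) (d I A E M H : ℕ → ℕ) (G U V Z : ℕ → ℕ → ℕ) (a b : ℕ) :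
    Chk n R d I A E M H G U V Z a b ↔
      (∀ k < R, M k ≠ 0 → I k < n ∧ 1 ≤ E k ∧ 1 ≤ H k ∧
        A k + (M k - 1) * E k < ∑ i ∈ Finset.range n, d i) ∧
      (∀ k < R, M k ≠ 0 → ∃ l < R, M l ≠ 0 ∧ I l = I k ∧
        (A k + (M k - 1) * E k + H k) % (∑ i ∈ Finset.range n, d i) = A l) ∧
      (∀ i < n, ∑ k ∈ Finset.range R, (if I k = i then M k else 0) = d i) ∧
      (∀ k < R, ∀ l < R, k < l → M k ≠ 0 → M l ≠ 0 →
        apC (A k) (E k) (M k) (A l) (E l) (M l) (G k l) (U k l) (V k l) (Z k l)) ∧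
      b * (∏ i ∈ Finset.range n, d i) *
          ∑ k ∈ Finset.range R, (if M k = 0 then 0 else (M k - 1) * (E k * E k) + H k * H k) ≤
        a * (∏ i ∈ Finset.range n, d i) + b * ((∑ i ∈ Finset.range n, d i) *
          (∑ i ∈ Finset.range n, d i)) *
          ∑ i ∈ Finset.range n, (∏ i ∈ Finset.range n, d i) / d i :=
  ⟨fun h => ⟨h.1, h.2, h.3, h.4, h.5⟩, fun h => ⟨h.1, h.2.1, h.2.2.1, h.2.2.2.1, h.2.2.2.2⟩⟩

/-- P11. (`Chk` is the conjunction of its five fields; the contexts of the loops are `α × ℕ` and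
`(α × ℕ) × ℕ`; `BT.comp`, `PT.fst`, `PT.snd`, P1 - P10.) -/
theorem PP_Chk {n R a b : α → ℕ} {d I A E M H : α × ℕ → ℕ} {G U V Z : (α × ℕ) × ℕ → ℕ}
    (hn : PT n) (hR : PT R) (ha : BT a) (hb : BT b) (hd : BT d) (hI : BT I) (hA : BT A) (hE : BT E)
    (hM : BT M) (hH : BT H) (hG : BT G) (hU : BT U) (hV : BT V) (hZ : BT Z) :
    PP fun x => Chk (n x) (R x) (fun i => d (x, i)) (fun k => I (x, k)) (fun k => A (x, k))
      (fun k => E (x, k)) (fun k => M (x, k)) (fun k => H (x, k)) (fun k l => G ((x, k), l))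
      (fun k l => U ((x, k), l)) (fun k l => V ((x, k), l)) (fun k l => Z ((x, k), l))
      (a x) (b x) := by
  refine PP.congr ?_ fun x => PP_Chk_iff _ _ _ _ _ _ _ _ _ _ _ _ _ _
  -- the sum of the demands
  have hS : BT fun x : α => ∑ i ∈ Finset.range (n x), d (x, i) := BT_sum hn hd
  have hP : BT fun x : α => ∏ i ∈ Finset.range (n x), d (x, i) := BT_prod hn hd
  have hS1 : BT fun y : α × ℕ => ∑ i ∈ Finset.range (n y.1), d (y.1, i) :=
    BT.comp (F := fun x : α => ∑ i ∈ Finset.range (n x), d (x, i)) hS PT.fst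
  have hS2 : BT fun z : (α × ℕ) × ℕ => ∑ i ∈ Finset.range (n z.1.1), d (z.1.1, i) :=
    BT.comp (F := fun y : α × ℕ => ∑ i ∈ Finset.range (n y.1), d (y.1, i)) hS1 PT.fst
  have hR1 : PT fun y : α × ℕ => R y.1 := PT.comp hR PT.fst
  have h1 : BT fun _ : α × ℕ => 1 := BT.const 1
  have h0 : BT fun _ : α × ℕ => 0 := BT.const 0
  have h02 : BT fun _ : (α × ℕ) × ℕ => 0 := BT.const 0
  have h12 : BT fun _ : (α × ℕ) × ℕ => 1 := BT.const 1
  -- the functions of the inner index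
  have hl : PT fun z : (α × ℕ) × ℕ => (z.1.1, z.2) := PT.pair (PT.fst' PT.fst) PT.snd
  have hn1 : BT fun y : α × ℕ => n y.1 := BT.ofUnary (PT.comp hn PT.fst)
  refine PP.and ?_ (PP.and ?_ (PP.and ?_ (PP.and ?_ ?_)))
  · refine PP.all (P := fun y : α × ℕ => M y ≠ 0 → I y < n y.1 ∧ 1 ≤ E y ∧ 1 ≤ H y ∧
      A y + (M y - 1) * E y < ∑ i ∈ Finset.range (n y.1), d (y.1, i)) hR ?_
    exact PP.imp (PP.ne hM h0) (PP.and (PP.lt hI hn1) (PP.and (PP.le h1 hE) (PP.and (PP.le h1 hH)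
      (PP.lt (BT.add hA (BT.mul (BT.sub hM h1) hE)) hS1))))
  · refine PP.all (P := fun y : α × ℕ => M y ≠ 0 → ∃ l < R y.1, M (y.1, l) ≠ 0 ∧
      I (y.1, l) = I y ∧ (A y + (M y - 1) * E y + H y) %
        (∑ i ∈ Finset.range (n y.1), d (y.1, i)) = A (y.1, l)) hR ?_
    refine PP.imp (PP.ne hM h0) (PP.ex (P := fun z : (α × ℕ) × ℕ => M (z.1.1, z.2) ≠ 0 ∧
      I (z.1.1, z.2) = I z.1 ∧ (A z.1 + (M z.1 - 1) * E z.1 + H z.1) %
        (∑ i ∈ Finset.range (n z.1.1), d (z.1.1, i)) = A (z.1.1, z.2)) hR1 ?_)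
    refine PP.and (PP.ne (BT.comp hM hl) h02) (PP.and (PP.eq (BT.comp hI hl) (BT.comp hI PT.fst))
      (PP.eq (BT.mod (BT.add (BT.add (BT.comp hA PT.fst) (BT.mul (BT.sub (BT.comp hM PT.fst) h12)
        (BT.comp hE PT.fst))) (BT.comp hH PT.fst)) hS2) (BT.comp hA hl)))
  · refine PP.all (P := fun y : α × ℕ => ∑ k ∈ Finset.range (R y.1),
      (if I (y.1, k) = y.2 then M (y.1, k) else 0) = d y) hn ?_
    refine PP.eq (BT_sum (f := fun z : (α × ℕ) × ℕ =>
      if I (z.1.1, z.2) = z.1.2 then M (z.1.1, z.2) else 0) hR1 ?_) hd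
    exact BT_ite (PP.eq (BT.comp hI hl) (BT.ofUnary (PT.snd' PT.fst))) (BT.comp hM hl) h02
  · refine PP.all (P := fun y : α × ℕ => ∀ l < R y.1, y.2 < l → M y ≠ 0 → M (y.1, l) ≠ 0 →
      apC (A y) (E y) (M y) (A (y.1, l)) (E (y.1, l)) (M (y.1, l)) (G (y, l)) (U (y, l)) (V (y, l))
        (Z (y, l))) hR ?_
    refine PP.all (P := fun z : (α × ℕ) × ℕ => z.1.2 < z.2 → M z.1 ≠ 0 → M (z.1.1, z.2) ≠ 0 →
      apC (A z.1) (E z.1) (M z.1) (A (z.1.1, z.2)) (E (z.1.1, z.2)) (M (z.1.1, z.2)) (G z) (U z)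
        (V z) (Z z)) hR1 ?_
    exact PP.imp (PP.lt (BT.ofUnary (PT.snd' PT.fst)) (BT.ofUnary PT.snd))
      (PP.imp (PP.ne (BT.comp hM PT.fst) h02) (PP.imp (PP.ne (BT.comp hM hl) h02)
      (PP_apC (BT.comp hA PT.fst) (BT.comp hE PT.fst) (BT.comp hM PT.fst) (BT.comp hA hl)
        (BT.comp hE hl) (BT.comp hM hl) hG hU hV hZ)))
  · have hcost : BT fun x : α => ∑ k ∈ Finset.range (R x), (if M (x, k) = 0 then 0 else
        (M (x, k) - 1) * (E (x, k) * E (x, k)) + H (x, k) * H (x, k)) :=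
      BT_sum (f := fun y : α × ℕ => if M y = 0 then 0 else
        (M y - 1) * (E y * E y) + H y * H y) hR
        (BT_ite (PP.eq hM h0) h0 (BT.add (BT.mul (BT.sub hM h1) (BT.mul hE hE)) (BT.mul hH hH)))
    have hinv : BT fun x : α => ∑ i ∈ Finset.range (n x),
        (∏ i ∈ Finset.range (n x), d (x, i)) / d (x, i) :=
      BT_sum (f := fun y : α × ℕ => (∏ i ∈ Finset.range (n y.1), d (y.1, i)) / d y) hn
        (BT.div (BT.comp (F := fun x : α => ∏ i ∈ Finset.range (n x), d (x, i)) hP PT.fst) hd)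
    exact PP.le (BT.mul (BT.mul hb hP) hcost)
      (BT.add (BT.mul ha hP) (BT.mul (BT.mul hb (BT.mul hS hS)) hinv))
-- END PP_Chk

end Pool.Agent.Rtv
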