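import Pool.Agent.Rtv.Snd
import Pool.Agent.Rtv.Cmp
import Pool.Agent.Rtv.Pt
import Pool.Agent.NPC.Pair

/-!
# RTV FIN: the theorem
-/

set_option autoImplicit false

namespace Pool.Agent.Rtv

open Pool.Agent.PRT Pool.NPC Pool.NPC.Enc Pool.NPC.Tr Polynomial

/-- the number of models of an input -/
def nn (x : List Bool) : ℕ := (x.length - (lead x + 1)) / lead x - 2

/-- the number of slots -/
def RR (q : ℕ[X]) (x : List Bool) : ℕ := 4 * q.eval x.length + x.length

/-- the width of the numbers in a certificate -/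
def WW (x : List Bool) : ℕ := 2 * x.length + 2

/-- the verifier -/
def Vp (q : ℕ[X]) (x w : List Bool) : Prop :=
  1 ≤ lead x ∧ x.length = lead x + 1 + (nn x + 2) * lead x ∧ 1 ≤ nn x ∧
  num (lead x) 1 (x.drop (lead x + 1)) ≠ 0 ∧
  (∀ i < nn x, num (lead x) (i + 2) (x.drop (lead x + 1)) ≠ 0) ∧
  num (lead x) 0 (x.drop (lead x + 1)) ≤
    q.eval x.length * num (lead x) 1 (x.drop (lead x + 1)) ∧
  Chk (nn x) (RR q x) (fun i => num (lead x) (i + 2) (x.drop (lead x + 1)))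
    (fun k => fld (WW x) (RR q x) 0 k w) (fun k => fld (WW x) (RR q x) 1 k w)
    (fun k => fld (WW x) (RR q x) 2 k w) (fun k => fld (WW x) (RR q x) 3 k w)
    (fun k => fld (WW x) (RR q x) 4 k w)
    (fun k l => pfl (WW x) (RR q x) 0 k l w) (fun k l => pfl (WW x) (RR q x) 1 k l w)
    (fun k l => pfl (WW x) (RR q x) 2 k l w) (fun k l => pfl (WW x) (RR q x) 3 k l w)
    (num (lead x) 0 (x.drop (lead x + 1))) (num (lead x) 1 (x.drop (lead x + 1)))

-- BEGIN PP_Vp
/-- F1. (`PP_Chk`, `BT_num`, `PT_lead`, `PT.drop`, `PT.length`, `PT.polyEval`, `PT.div`, `BT.ofUnary`.) -/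
theorem PP_Vp (q : ℕ[X]) : PP fun p : List Bool × List Bool => Vp q p.1 p.2 := by
  have hx : PT fun p : List Bool × List Bool => p.1 := PT.fst
  have hw : PT fun p : List Bool × List Bool => p.2 := PT.snd
  have hlen : PT fun p : List Bool × List Bool => p.1.length := PT.length hx
  have hle : PT fun p : List Bool × List Bool => lead p.1 := PT_lead hx
  have hdr : PT fun p : List Bool × List Bool => p.1.drop (lead p.1 + 1) :=
    PT.drop hx (PT.succ hle)
  have h2 : PT fun _ : List Bool × List Bool => 2 := PT.const 2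
  have hnn : PT fun p : List Bool × List Bool => nn p.1 :=
    PT.sub (PT.div (PT.sub hlen (PT.succ hle)) hle) h2
  have hq : PT fun p : List Bool × List Bool => q.eval p.1.length := PT.polyEval q hlen
  have hRR : PT fun p : List Bool × List Bool => RR q p.1 :=
    PT.add (PT.mul (PT.const 4) hq) hlen
  have hWW : PT fun p : List Bool × List Bool => WW p.1 :=
    PT.add (PT.mul h2 hlen) h2
  have ha : BT fun p : List Bool × List Bool => num (lead p.1) 0 (p.1.drop (lead p.1 + 1)) :=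
    BT_num hle (PT.const 0) hdr
  have hb : BT fun p : List Bool × List Bool => num (lead p.1) 1 (p.1.drop (lead p.1 + 1)) :=
    BT_num hle (PT.const 1) hdr
  have hd : BT fun y : (List Bool × List Bool) × ℕ =>
      num (lead y.1.1) (y.2 + 2) (y.1.1.drop (lead y.1.1 + 1)) :=
    BT_num (PT.comp (g := fun p : List Bool × List Bool => lead p.1) hle PT.fst)
      (PT.add PT.snd (PT.const 2))
      (PT.comp (g := fun p : List Bool × List Bool => p.1.drop (lead p.1 + 1)) hdr PT.fst)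
  have hfld : ∀ c : ℕ, BT fun y : (List Bool × List Bool) × ℕ =>
      fld (WW y.1.1) (RR q y.1.1) c y.2 y.1.2 := fun c =>
    BT_num (PT.comp (g := fun p : List Bool × List Bool => WW p.1) hWW PT.fst)
      (PT.add (PT.mul (PT.const c)
        (PT.comp (g := fun p : List Bool × List Bool => RR q p.1) hRR PT.fst)) PT.snd)
      (PT.comp (g := fun p : List Bool × List Bool => p.2) hw PT.fst)
  have hRR2 : PT fun z : ((List Bool × List Bool) × ℕ) × ℕ => RR q z.1.1.1 :=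
    PT.comp (g := fun p : List Bool × List Bool => RR q p.1) hRR (PT.fst' PT.fst)
  have hpfl : ∀ c : ℕ, BT fun z : ((List Bool × List Bool) × ℕ) × ℕ =>
      pfl (WW z.1.1.1) (RR q z.1.1.1) c z.1.2 z.2 z.1.1.2 := fun c =>
    BT_num (PT.comp (g := fun p : List Bool × List Bool => WW p.1) hWW (PT.fst' PT.fst))
      (PT.add (PT.mul (PT.const 5) hRR2) (PT.add (PT.mul (PT.add (PT.mul (PT.const c) hRR2)
        (PT.snd' PT.fst)) hRR2) PT.snd))
      (PT.comp (g := fun p : List Bool × List Bool => p.2) hw (PT.fst' PT.fst))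
  have h0 : BT fun _ : List Bool × List Bool => 0 := BT.const 0
  have h1 : BT fun _ : List Bool × List Bool => 1 := BT.const 1
  unfold Vp
  refine PP.and (PP.le h1 (BT.ofUnary hle)) (PP.and (PP.eq (BT.ofUnary hlen)
    (BT.ofUnary (PT.add (PT.succ hle) (PT.mul (PT.add hnn h2) hle)))) (PP.and
    (PP.le h1 (BT.ofUnary hnn)) (PP.and (PP.ne hb h0) (PP.and ?_ (PP.and ?_ ?_)))))
  · refine PP.all (P := fun y : (List Bool × List Bool) × ℕ =>
      num (lead y.1.1) (y.2 + 2) (y.1.1.drop (lead y.1.1 + 1)) ≠ 0) hnn (PP.ne hd (BT.const 0))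
  · exact PP.le ha (BT.mul (BT.ofUnary hq) hb)
  · exact PP_Chk (n := fun p : List Bool × List Bool => nn p.1)
      (R := fun p : List Bool × List Bool => RR q p.1) hnn hRR ha hb hd
      (hfld 0) (hfld 1) (hfld 2) (hfld 3) (hfld 4) (hpfl 0) (hpfl 1) (hpfl 2) (hpfl 3)
-- END PP_Vp

-- BEGIN chk_congr
/-- F2. `Chk` depends on the values for `i < n` and `k, l < R` only. (`subst` / `Finset.sum_congr`.) -/
theorem chk_congr {n R a b : ℕ} {d I A E M H d' I' A' E' M' H' : ℕ → ℕ}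
    {G U V Z G' U' V' Z' : ℕ → ℕ → ℕ} (h : Chk n R d I A E M H G U V Z a b)
    (hd : ∀ i < n, d' i = d i)
    (hk : ∀ k < R, I' k = I k ∧ A' k = A k ∧ E' k = E k ∧ M' k = M k ∧ H' k = H k)
    (hkl : ∀ k < R, ∀ l < R, G' k l = G k l ∧ U' k l = U k l ∧ V' k l = V k l ∧ Z' k l = Z k l) :
    Chk n R d' I' A' E' M' H' G' U' V' Z' a b := by
  have hsum : ∑ i ∈ Finset.range n, d' i = ∑ i ∈ Finset.range n, d i :=
    Finset.sum_congr rfl fun i hi => hd i (Finset.mem_range.1 hi)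
  have hprod : ∏ i ∈ Finset.range n, d' i = ∏ i ∈ Finset.range n, d i :=
    Finset.prod_congr rfl fun i hi => hd i (Finset.mem_range.1 hi)
  refine ⟨?_, ?_, ?_, ?_, ?_⟩
  · intro k hkR hM
    obtain ⟨h1, h2, h3, h4, h5⟩ := hk k hkR
    rw [hsum, h1, h2, h3, h4, h5]
    rw [h4] at hM
    exact h.rng k hkR hM
  · intro k hkR hM
    obtain ⟨h1, h2, h3, h4, h5⟩ := hk k hkR
    rw [h4] at hM
    obtain ⟨l, hl, hl1, hl2, hl3⟩ := h.nxt k hkR hM
    obtain ⟨g1, g2, g3, g4, g5⟩ := hk l hl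
    refine ⟨l, hl, by rw [g4]; exact hl1, by rw [g1, h1]; exact hl2, ?_⟩
    rw [hsum, h2, h3, h4, h5, g2]
    exact hl3
  · intro i hi
    rw [hd i hi, ← h.cnt i hi]
    refine Finset.sum_congr rfl fun k hkR => ?_
    obtain ⟨h1, h2, h3, h4, h5⟩ := hk k (Finset.mem_range.1 hkR)
    rw [h1, h4]
  · intro k hkR l hlR hlt hM hM'
    obtain ⟨h1, h2, h3, h4, h5⟩ := hk k hkR
    obtain ⟨g1, g2, g3, g4, g5⟩ := hk l hlR
    obtain ⟨f1, f2, f3, f4⟩ := hkl k hkR l hlR
    rw [h4] at hM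
    rw [g4] at hM'
    rw [h2, h3, h4, g2, g3, g4, f1, f2, f3, f4]
    exact h.dis k hkR l hlR hlt hM hM'
  · have e1 : ∑ k ∈ Finset.range R,
        (if M' k = 0 then 0 else (M' k - 1) * (E' k * E' k) + H' k * H' k) =
        ∑ k ∈ Finset.range R, (if M k = 0 then 0 else (M k - 1) * (E k * E k) + H k * H k) := by
      refine Finset.sum_congr rfl fun k hkR => ?_
      obtain ⟨h1, h2, h3, h4, h5⟩ := hk k (Finset.mem_range.1 hkR)
      rw [h3, h4, h5]
    have e2 : ∑ i ∈ Finset.range n, (∏ i ∈ Finset.range n, d i) / d' i =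
        ∑ i ∈ Finset.range n, (∏ i ∈ Finset.range n, d i) / d i :=
      Finset.sum_congr rfl fun i hi => by rw [hd i (Finset.mem_range.1 hi)]
    rw [hsum, hprod, e1, e2]
    exact h.cst
-- END chk_congr

-- BEGIN Vp_of_mem
/-- F3. (`parse_code`, `complete` with `Q = q.eval N`, `R = RR q x`, `tot_lt`, `exists_cert`,
`chk_congr`.) -/
theorem Vp_of_mem (q : ℕ[X]) (x : List Bool) (hx : x ∈ smallRTV q) :
    ∃ w : List Bool, w.length = (5 * RR q x + 4 * RR q x * RR q x) * WW x ∧ Vp q x w := by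
  obtain ⟨B, a, b, n, d, hxc, ha, hb, hd, hb0, hn0, hd0, hK, s, hs, hr⟩ := hx
  obtain ⟨hl, hlen, p0, p1, p2⟩ := parse_code B a b d x hxc ha hb hd
  have hB : 1 ≤ B := by
    by_contra hc
    have : B = 0 := by omega
    subst this
    omega
  have hnn : nn x = n := by
    rw [nn, hl, hlen, Nat.add_sub_cancel_left, Nat.mul_div_cancel _ (by omega)]
    omega
  have h2B : (n + 2) * B = n * B + 2 * B := by ring
  have hnB : n ≤ n * B := Nat.le_mul_of_pos_right n hB
  have hnN : n ≤ x.length := by omega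
  have hD : ∑ i, d i < 2 ^ x.length := tot_lt B d hd x.length (by omega)
  obtain ⟨I, A, E, M, H, G, U, V, Z, hC, hbd, hbd'⟩ := complete d hd0 s hs a b (q.eval x.length)
    (RR q x) hb0 hr hK (by rw [RR]; omega)
  have hW : 2 ^ WW x = 4 * (2 ^ x.length * 2 ^ x.length) := by
    rw [WW, pow_add, two_mul, pow_add]
    ring
  have hW1 : ∀ t, t ≤ ∑ i, d i → t < 2 ^ WW x := fun t ht => by
    rw [hW]
    have h1 : 2 ^ x.length ≤ 2 ^ x.length * 2 ^ x.length :=
      Nat.le_mul_of_pos_right _ (by positivity)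
    omega
  have hW2 : ∀ t, t ≤ ∑ i, d i + ∑ i, d i + (∑ i, d i) * ∑ i, d i → t < 2 ^ WW x := fun t ht => by
    rw [hW]
    have h1 : 2 ^ x.length ≤ 2 ^ x.length * 2 ^ x.length :=
      Nat.le_mul_of_pos_right _ (by positivity)
    have h2 : (∑ i, d i) * ∑ i, d i ≤ 2 ^ x.length * 2 ^ x.length :=
      Nat.mul_le_mul hD.le hD.le
    omega
  obtain ⟨w, hw, hw1, hw2⟩ := exists_cert (WW x) (RR q x) I A E M H G U V Z
    (fun k => ⟨hW1 _ (hbd k).1, hW1 _ (hbd k).2.1, hW1 _ (hbd k).2.2.1, hW1 _ (hbd k).2.2.2.1,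
      hW1 _ (hbd k).2.2.2.2⟩)
    (fun k l => ⟨hW1 _ (hbd' k l).1, hW1 _ (hbd' k l).2.1, hW1 _ (hbd' k l).2.2.1,
      hW2 _ (hbd' k l).2.2.2⟩)
  refine ⟨w, hw, ?_⟩
  rw [Vp, hnn, hl, p0, p1]
  refine ⟨hB, hlen, hn0, by omega, fun i hi => ?_, ?_, ?_⟩
  · rw [p2 i hi, dN, dif_pos hi]
    exact (hd0 _).ne'
  · rw [div_le_iff₀ (by exact_mod_cast hb0)] at hK
    exact_mod_cast hK
  · refine chk_congr hC p2 hw1 hw2
-- END Vp_of_mem

-- BEGIN mem_of_Vp
/-- F4. (`code_parse`, `num_lt`, `sound`, `chk_congr`.) -/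
theorem mem_of_Vp (q : ℕ[X]) (x w : List Bool) (h : Vp q x w) : x ∈ smallRTV q := by
  obtain ⟨h1, h2, h3, h4, h5, h6, h7⟩ := h
  have hdN : ∀ i < nn x, dN (fun i : Fin (nn x) => num (lead x) (i + 2) (x.drop (lead x + 1))) i =
      num (lead x) (i + 2) (x.drop (lead x + 1)) := fun i hi => by
    rw [dN, dif_pos hi]
  have h0 : 0 < num (lead x) 1 (x.drop (lead x + 1)) := Nat.pos_of_ne_zero h4
  obtain ⟨s, hs, hr⟩ := sound
    (chk_congr h7 hdN (fun k _ => ⟨rfl, rfl, rfl, rfl, rfl⟩) fun k _ l _ => ⟨rfl, rfl, rfl, rfl⟩)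
    h0 (fun i => Nat.pos_of_ne_zero (h5 i i.2))
  refine ⟨lead x, _, _, nn x, _, code_parse (nn x) x h2, num_lt _ _ _, num_lt _ _ _,
    fun i => num_lt _ _ _, h0, by omega, fun i => Nat.pos_of_ne_zero (h5 i i.2), ?_, s, hs, hr⟩
  rw [div_le_iff₀ (by exact_mod_cast h0)]
  exact_mod_cast h6
-- END mem_of_Vp

/-- **Theorem.** -/
theorem main (q : ℕ[X]) : InNP (smallRTV q) := by
  classical
  refine ⟨fun p => @decide (Vp q p.1 p.2) (Classical.dec _),
    (5 * (4 * q + X) + 4 * (4 * q + X) * (4 * q + X)) * (2 * X + 2),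
    PT.verifier (PP_Vp q), fun x => ⟨fun hx => ?_, fun hx => ?_⟩⟩
  · obtain ⟨w, hw, hv⟩ := Vp_of_mem q x hx
    refine ⟨w, ?_, by simpa using hv⟩
    rw [hw]
    simp [RR, WW]
  · obtain ⟨w, -, hv⟩ := hx
    exact mem_of_Vp q x w (by simpa using hv)

end Pool.Agent.Rtv
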