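import Pool.Agent.Rtv.Def
import Pool.Agent.PRT.BOf

/-!
# RTV ENC: codes
-/

set_option autoImplicit false

namespace Pool.Agent.Rtv

open Finset

open Pool.Agent.PRT (bval bval_cons bval_append bval_lt)

/-- the number in the block `k` (blocks of `B` digits) of a string -/
def num (B k : ℕ) (l : List Bool) : ℕ :=
  bval ((List.range B).flatMap fun j => [l.getD (k * B + j) false])

/-- the number of leading ones -/
def lead (x : List Bool) : ℕ :=
  (List.range x.length).countP fun i => (List.range (i + 1)).all fun j => x.getD j false

/-- field number `c` of the slot `k` -/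
def fld (W R c k : ℕ) (w : List Bool) : ℕ := num W (c * R + k) w

/-- field number `c` of the pair `k, l` -/
def pfl (W R c k l : ℕ) (w : List Bool) : ℕ := num W (5 * R + ((c * R + k) * R + l)) w

-- BEGIN num_lt
/-- E1. -/
theorem num_lt (B k : ℕ) (l : List Bool) : num B k l < 2 ^ B := by
  refine (bval_lt _).trans_le (le_of_eq ?_)
  congr 1
  simp
-- END num_lt

-- BEGIN bval_bitsW
private theorem bval_bitsW_succ (B v : ℕ) :
    bitsW (B + 1) v = v.testBit 0 :: bitsW B (v / 2) := by
  rw [bitsW, List.range_succ_eq_map, List.map_cons, List.map_map, bitsW]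
  congr 1
  refine List.map_congr_left fun j _ => ?_
  show v.testBit (j + 1) = _
  rw [Nat.testBit_succ]

/-- E2. (Induction on `B`, `v` general; `List.range_succ_eq_map`, `Nat.testBit_succ`.) -/
theorem bval_bitsW (B v : ℕ) (h : v < 2 ^ B) : bval (bitsW B v) = v := by
  induction B generalizing v with
  | zero =>
    have : v = 0 := by simpa using h
    subst this
    rfl
  | succ B ih =>
    rw [bval_bitsW_succ, bval_cons, ih (v / 2) (by rw [pow_succ] at h; omega), Nat.testBit_zero]
    rcases Nat.mod_two_eq_zero_or_one v with h2 | h2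
    · rw [h2]; simp; omega
    · rw [h2]; simp; omega
-- END bval_bitsW

-- BEGIN num_flat
private theorem num_flat_len (B v : ℕ) : (bitsW B v).length = B := by simp [bitsW]

private theorem num_flat_id (l m : List Bool) :
    ((List.range l.length).flatMap fun j => [(l ++ m).getD j false]) = l := by
  rw [← List.map_eq_flatMap]
  apply List.ext_getElem
  · simp
  · intro i h1 h2
    simp only [List.getElem_map, List.getElem_range, List.getD_eq_getElem?_getD]
    rw [List.getElem?_append_left h2, List.getElem?_eq_getElem h2]
    rfl

private theorem num_flat_zero (B : ℕ) (l m : List Bool) (h : l.length = B) :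
    num B 0 (l ++ m) = bval l := by
  subst h
  rw [num]
  congr 1
  simp only [zero_mul, zero_add]
  exact num_flat_id l m

private theorem num_flat_succ (B k : ℕ) (l m : List Bool) (h : l.length = B) :
    num B (k + 1) (l ++ m) = num B k m := by
  rw [num, num]
  congr 2
  funext j
  rw [List.getD_eq_getElem?_getD, List.getD_eq_getElem?_getD, List.getElem?_append_right]
  · congr 3
    have : (k + 1) * B = k * B + B := by ring
    omega
  · have : (k + 1) * B = k * B + B := by ring
    omega

/-- E3. -/
theorem num_flat (B : ℕ) (vs : List ℕ) (h : ∀ v ∈ vs, v < 2 ^ B) (k : ℕ) (hk : k < vs.length) :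
    num B k (vs.flatMap (bitsW B)) = vs[k] := by
  induction vs generalizing k with
  | nil => simp at hk
  | cons v vs ih =>
    rw [List.flatMap_cons]
    cases k with
    | zero =>
      rw [num_flat_zero B _ _ (num_flat_len B v), bval_bitsW B v (h v (by simp))]
      rfl
    | succ k =>
      rw [num_flat_succ B k _ _ (num_flat_len B v),
        ih (fun v hv => h v (by simp [hv])) k (by simpa using hk)]
      rfl
-- END num_flat

-- BEGIN flat_num
private theorem flat_num_bits (t : List Bool) : bitsW t.length (bval t) = t := by
  induction t with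
  | nil => rfl
  | cons b t ih =>
    rw [List.length_cons, bval_bitsW_succ, bval_cons]
    have h1 : (b.toNat + 2 * bval t) / 2 = bval t := by
      have : b.toNat ≤ 1 := Bool.toNat_le b
      omega
    rw [h1, ih, Nat.testBit_zero]
    cases b <;> simp

/-- E4. A string of length `r B` is the concatenation of its `r` blocks. -/
theorem flat_num (B r : ℕ) (l : List Bool) (h : l.length = r * B) :
    ((List.range r).map fun k => num B k l).flatMap (bitsW B) = l := by
  induction r generalizing l with
  | zero =>
    have : l = [] := by simpa using h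
    subst this
    rfl
  | succ r ih =>
    have h1 : (r + 1) * B = r * B + B := by ring
    have h2 : (l.take B).length = B := by rw [List.length_take]; omega
    have h3 : (l.drop B).length = r * B := by rw [List.length_drop]; omega
    conv_rhs => rw [← List.take_append_drop B l]
    rw [List.range_succ_eq_map, List.map_cons, List.map_map, List.flatMap_cons]
    congr 1
    · have h4 : num B 0 l = bval (l.take B) := by
        conv_lhs => rw [← List.take_append_drop B l]
        exact num_flat_zero B _ _ h2
      rw [h4]
      have h5 := flat_num_bits (l.take B)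
      rwa [h2] at h5
    · conv_rhs => rw [← ih (l.drop B) h3]
      congr 1
      refine List.map_congr_left fun k _ => ?_
      show num B (k + 1) l = _
      conv_lhs => rw [← List.take_append_drop B l]
      exact num_flat_succ B k _ _ h2
-- END flat_num

-- BEGIN exists_str
private theorem exists_str_len (B : ℕ) (vs : List ℕ) :
    (vs.flatMap (bitsW B)).length = vs.length * B := by
  induction vs with
  | nil => simp
  | cons v vs ih =>
    rw [List.flatMap_cons, List.length_append, ih, num_flat_len, List.length_cons]
    ring

/-- E5. (E3 with `vs = (List.range T).map f`.) -/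
theorem exists_str (W T : ℕ) (f : ℕ → ℕ) (hf : ∀ i < T, f i < 2 ^ W) :
    ∃ w : List Bool, w.length = T * W ∧ ∀ i < T, num W i w = f i := by
  refine ⟨((List.range T).map f).flatMap (bitsW W), ?_, fun i hi => ?_⟩
  · rw [exists_str_len, List.length_map, List.length_range]
  · have hv : ∀ v ∈ (List.range T).map f, v < 2 ^ W := by
      intro v hv
      rw [List.mem_map] at hv
      obtain ⟨j, hj, rfl⟩ := hv
      exact hf j (List.mem_range.1 hj)
    rw [num_flat W _ hv i (by rw [List.length_map, List.length_range]; exact hi),
      List.getElem_map, List.getElem_range]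
-- END exists_str

-- BEGIN lead_code
private theorem lead_code_count (m n : ℕ) :
    (List.range n).countP (fun i => decide (i < m)) = min n m := by
  induction n with
  | zero => simp
  | succ n ih =>
    rw [List.range_succ, List.countP_append, ih]
    by_cases h : n < m
    · simp [h]; omega
    · simp [h]; omega

private theorem lead_code_aux (x : List Bool) (B : ℕ) (hB : B ≤ x.length)
    (h1 : ∀ j < B, x.getD j false = true) (h2 : x.getD B false = false) : lead x = B := by
  rw [lead]
  have h3 : ∀ i ∈ List.range x.length, ((List.range (i + 1)).all fun j => x.getD j false) =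
      decide (i < B) := by
    intro i _
    rw [Bool.eq_iff_iff, List.all_eq_true, decide_eq_true_iff]
    constructor
    · intro h
      by_contra hc
      have := h B (List.mem_range.2 (by omega))
      rw [h2] at this
      exact absurd this (by simp)
    · intro h j hj
      exact h1 j (by rw [List.mem_range] at hj; omega)
  rw [List.countP_congr (q := fun i => decide (i < B)) (fun i hi => by rw [h3 i hi]),
    lead_code_count]
  omega

/-- E6. -/
theorem lead_code (B : ℕ) (l : List Bool) : lead (List.replicate B true ++ false :: l) = B := by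
  apply lead_code_aux
  · simp
  · intro j hj
    rw [List.getD_eq_getElem?_getD, List.getElem?_append_left (by simpa using hj),
      List.getElem?_replicate]
    simp [hj]
  · rw [List.getD_eq_getElem?_getD, List.getElem?_append_right (by simp)]
    simp
-- END lead_code

-- BEGIN lead_split
/-- E7. (The first `lead x` entries are `true`, the next one is `false`.) -/
theorem lead_split (x : List Bool) (h : lead x < x.length) :
    x = List.replicate (lead x) true ++ false :: x.drop (lead x + 1) := by
  classical
  have hex : ∃ j, j < x.length ∧ x.getD j false = false := by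
    by_contra hc
    push Not at hc
    have : lead x = x.length := by
      rw [lead, List.countP_eq_length.2]
      · simp
      · intro i hi
        rw [List.all_eq_true]
        intro j hj
        rw [List.mem_range] at hi hj
        have := hc j (by omega)
        simpa using this
    omega
  obtain ⟨h1, h2⟩ := Nat.find_spec hex
  have h3 : ∀ j < Nat.find hex, x.getD j false = true := by
    intro j hj
    have := Nat.find_min hex hj
    rw [not_and] at this
    have h4 := this (by omega)
    simpa using h4
  have h5 : lead x = Nat.find hex := lead_code_aux x _ h1.le h3 h2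
  rw [h5]
  conv_lhs => rw [← List.take_append_drop (Nat.find hex) x]
  congr 1
  · rw [List.eq_replicate_iff]
    refine ⟨by rw [List.length_take]; omega, fun b hb => ?_⟩
    rw [List.mem_iff_getElem] at hb
    obtain ⟨j, hj, rfl⟩ := hb
    rw [List.length_take] at hj
    rw [List.getElem_take]
    have := h3 j (by omega)
    rw [List.getD_eq_getElem?_getD, List.getElem?_eq_getElem (by omega)] at this
    exact this
  · rw [List.drop_eq_getElem_cons h1]
    congr 1
    rw [List.getD_eq_getElem?_getD, List.getElem?_eq_getElem h1] at h2
    exact h2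
-- END lead_split

-- BEGIN parse_code
/-- E8. (E3, E6.) -/
theorem parse_code {n : ℕ} (B a b : ℕ) (d : Fin n → ℕ) (x : List Bool)
    (hx : x = code B (a :: b :: List.ofFn d)) (ha : a < 2 ^ B) (hb : b < 2 ^ B)
    (hd : ∀ i, d i < 2 ^ B) : lead x = B ∧ x.length = B + 1 + (n + 2) * B ∧
      num B 0 (x.drop (B + 1)) = a ∧ num B 1 (x.drop (B + 1)) = b ∧
      ∀ i < n, num B (i + 2) (x.drop (B + 1)) = dN d i := by
  have hdr : x.drop (B + 1) = (a :: b :: List.ofFn d).flatMap (bitsW B) := by
    have h1 : (List.replicate B true ++ [false]).length = B + 1 := by simp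
    rw [hx, code, ← List.singleton_append, ← List.append_assoc, ← h1, List.drop_left]
  have hall : ∀ v ∈ (a :: b :: List.ofFn d), v < 2 ^ B := by
    intro v hv
    rw [List.mem_cons, List.mem_cons, List.mem_ofFn] at hv
    rcases hv with rfl | rfl | ⟨i, rfl⟩
    · exact ha
    · exact hb
    · exact hd i
  refine ⟨by rw [hx, code, lead_code], ?_, ?_, ?_, fun i hi => ?_⟩
  · rw [hx, code, List.length_append, List.length_replicate, List.length_cons, exists_str_len]
    simp
    ring
  · rw [hdr, num_flat B _ hall 0 (by simp)]
    rfl
  · rw [hdr, num_flat B _ hall 1 (by simp)]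
    rfl
  · rw [hdr, num_flat B _ hall (i + 2) (by simpa using hi), dN, dif_pos hi]
    simp
-- END parse_code

-- BEGIN code_parse
/-- E9. (E4, E7.) -/
theorem code_parse (n : ℕ) (x : List Bool)
    (hl : x.length = lead x + 1 + (n + 2) * lead x) :
    x = code (lead x) (num (lead x) 0 (x.drop (lead x + 1)) ::
      num (lead x) 1 (x.drop (lead x + 1)) ::
      List.ofFn fun i : Fin n => num (lead x) (i + 2) (x.drop (lead x + 1))) := by
  have h1 := lead_split x (by omega)
  have h2 := flat_num (lead x) (n + 2) (x.drop (lead x + 1)) (by rw [List.length_drop]; omega)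
  have h3 : (num (lead x) 0 (x.drop (lead x + 1)) :: num (lead x) 1 (x.drop (lead x + 1)) ::
      List.ofFn fun i : Fin n => num (lead x) (i + 2) (x.drop (lead x + 1))) =
      (List.range (n + 2)).map fun k => num (lead x) k (x.drop (lead x + 1)) := by
    apply List.ext_getElem
    · simp
    · intro i hi hi'
      match i with
      | 0 => simp
      | 1 => simp
      | i + 2 => simp
  rw [code, h3, h2]
  exact h1
-- END code_parse

-- BEGIN tot_lt
/-- E10. (`∑ d i < n 2 ^ B + 1 ≤ 2 ^ (n + B)`.) -/
theorem tot_lt {n : ℕ} (B : ℕ) (d : Fin n → ℕ) (hd : ∀ i, d i < 2 ^ B) (N : ℕ)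
    (hN : B + n < N) : ∑ i, d i < 2 ^ N := by
  have h1 : ∑ i, d i ≤ n * 2 ^ B := by
    have := Finset.sum_le_card_nsmul univ d (2 ^ B) fun i _ => (hd i).le
    simpa using this
  have h2 : n * 2 ^ B < 2 ^ n * 2 ^ B :=
    (Nat.mul_lt_mul_right (by positivity)).2 Nat.lt_two_pow_self
  rw [← pow_add] at h2
  exact lt_of_le_of_lt h1 (h2.trans_le (Nat.pow_le_pow_right (by norm_num) (by omega)))
-- END tot_lt

-- BEGIN exists_cert
private theorem exists_cert_idx {R c k : ℕ} (hk : k < R) : (c * R + k) / R = c ∧ (c * R + k) % R = k := by
  have hR : 0 < R := by omega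
  constructor
  · rw [mul_comm, Nat.mul_add_div hR, Nat.div_eq_of_lt hk, add_zero]
  · rw [mul_comm, Nat.mul_add_mod, Nat.mod_eq_of_lt hk]

/-- E11. (E5 with `f t =` `I, A, E, M, H` of `t % R` according to `t / R` if `t < 5 R`, otherwise, with
`t' = t - 5 R`, `G, U, V, Z` of `(t' / R) % R, t' % R` according to `t' / R / R`.) -/
theorem exists_cert (W R : ℕ) (I A E M H : ℕ → ℕ) (G U V Z : ℕ → ℕ → ℕ)
    (h : ∀ k, I k < 2 ^ W ∧ A k < 2 ^ W ∧ E k < 2 ^ W ∧ M k < 2 ^ W ∧ H k < 2 ^ W)
    (h' : ∀ k l, G k l < 2 ^ W ∧ U k l < 2 ^ W ∧ V k l < 2 ^ W ∧ Z k l < 2 ^ W) :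
    ∃ w : List Bool, w.length = (5 * R + 4 * R * R) * W ∧
      (∀ k < R, fld W R 0 k w = I k ∧ fld W R 1 k w = A k ∧ fld W R 2 k w = E k ∧
        fld W R 3 k w = M k ∧ fld W R 4 k w = H k) ∧
      ∀ k < R, ∀ l < R, pfl W R 0 k l w = G k l ∧ pfl W R 1 k l w = U k l ∧
        pfl W R 2 k l w = V k l ∧ pfl W R 3 k l w = Z k l := by
  let f1 : ℕ → ℕ → ℕ := fun c k =>
    if c = 0 then I k else if c = 1 then A k else if c = 2 then E k else if c = 3 then M k else H k
  let f2 : ℕ → ℕ → ℕ → ℕ := fun c k l =>
    if c = 0 then G k l else if c = 1 then U k l else if c = 2 then V k l else Z k l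
  let f : ℕ → ℕ := fun t => if t < 5 * R then f1 (t / R) (t % R) else
    f2 ((t - 5 * R) / R / R) ((t - 5 * R) / R % R) ((t - 5 * R) % R)
  have hf : ∀ t, f t < 2 ^ W := by
    intro t
    show (if t < 5 * R then _ else _) < _
    split_ifs
    · show (if _ then _ else _) < _
      have := h (t % R)
      split_ifs <;> tauto
    · show (if _ then _ else _) < _
      have := h' ((t - 5 * R) / R % R) ((t - 5 * R) % R)
      split_ifs <;> tauto
  obtain ⟨w, hw, hw'⟩ := exists_str W (5 * R + 4 * R * R) f fun t _ => hf t
  have hfld : ∀ c < 5, ∀ k < R, fld W R c k w = f1 c k := by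
    intro c hc k hk
    have h1 : c * R + k < 5 * R := by
      have : c * R ≤ 4 * R := Nat.mul_le_mul_right _ (by omega)
      omega
    rw [fld, hw' _ (by omega)]
    show (if _ then _ else _) = _
    rw [if_pos h1, (exists_cert_idx hk).1, (exists_cert_idx hk).2]
  have hpfl : ∀ c < 4, ∀ k < R, ∀ l < R, pfl W R c k l w = f2 c k l := by
    intro c hc k hk l hl
    have h1 : c * R + k < 4 * R := by
      have : c * R ≤ 3 * R := Nat.mul_le_mul_right _ (by omega)
      omega
    have h2 : (c * R + k) * R + l < 4 * R * R := by
      have : (c * R + k + 1) * R ≤ 4 * R * R := Nat.mul_le_mul_right _ h1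
      have h3 : (c * R + k + 1) * R = (c * R + k) * R + R := by ring
      omega
    rw [pfl, hw' _ (by omega)]
    show (if _ then _ else _) = _
    rw [if_neg (by omega), Nat.add_sub_cancel_left, (exists_cert_idx hl).1, (exists_cert_idx hl).2,
      (exists_cert_idx hk).1, (exists_cert_idx hk).2]
  exact ⟨w, hw, fun k hk => ⟨hfld 0 (by norm_num) k hk, hfld 1 (by norm_num) k hk,
    hfld 2 (by norm_num) k hk, hfld 3 (by norm_num) k hk, hfld 4 (by norm_num) k hk⟩,
    fun k hk l hl => ⟨hpfl 0 (by norm_num) k hk l hl, hpfl 1 (by norm_num) k hk l hl,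
      hpfl 2 (by norm_num) k hk l hl, hpfl 3 (by norm_num) k hk l hl⟩⟩
-- END exists_cert

end Pool.Agent.Rtv
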