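import Pool.Agent.Rtv.Def

/-!
# RTV GAP: the sum of the gaps is `D`, `RTV = ∑ gap ^ 2 - ∑ D ^ 2 / d i`
-/

set_option autoImplicit false

namespace Pool.Agent.Rtv

open Finset

-- BEGIN gap_spec
/-- G1. (`Nat.sInf_mem`; the set contains `D`, with `y = x`.) -/
theorem gap_spec {D n : ℕ} (s : Fin D → Fin n) (x : Fin D) :
    1 ≤ gap s x ∧ gap s x ≤ D ∧ (∃ y : Fin D, (y : ℕ) = ((x : ℕ) + gap s x) % D ∧ s y = s x) ∧
      ∀ t : ℕ, 1 ≤ t → ∀ y : Fin D, (y : ℕ) = ((x : ℕ) + t) % D → s y = s x → gap s x ≤ t := by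
  have hD : D ∈ {t : ℕ | 1 ≤ t ∧ ∃ y : Fin D, (y : ℕ) = ((x : ℕ) + t) % D ∧ s y = s x} := by
    refine ⟨by have := x.2; omega, x, ?_, rfl⟩
    rw [Nat.add_mod_right, Nat.mod_eq_of_lt x.2]
  have h1 : gap s x ∈ {t : ℕ | 1 ≤ t ∧ ∃ y : Fin D, (y : ℕ) = ((x : ℕ) + t) % D ∧ s y = s x} :=
    Nat.sInf_mem ⟨D, hD⟩
  exact ⟨h1.1, Nat.sInf_le hD, h1.2, fun t ht y hy hs => Nat.sInf_le ⟨ht, y, hy, hs⟩⟩
-- END gap_spec

-- BEGIN gap_cover
private theorem gap_cover_le {D n : ℕ} (s : Fin D → Fin n) (i : Fin n) (x x' : Fin D) (t t' : ℕ)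
    (hx : s x = i) (hx' : s x' = i) (ht' : t' < gap s x')
    (h : ((x : ℕ) + t) % D = ((x' : ℕ) + t') % D) (hle : t ≤ t') : x = x' ∧ t = t' := by
  have h1 : (x : ℕ) ≡ (x' : ℕ) + (t' - t) [MOD D] := by
    apply Nat.ModEq.add_right_cancel' t
    have h2 : (x' : ℕ) + (t' - t) + t = (x' : ℕ) + t' := by omega
    rw [h2]
    exact h
  rcases Nat.eq_zero_or_pos (t' - t) with h0 | h0
  · rw [h0, Nat.add_zero] at h1
    refine ⟨Fin.ext ?_, by omega⟩
    have h3 : (x : ℕ) % D = (x' : ℕ) % D := h1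
    rwa [Nat.mod_eq_of_lt x.2, Nat.mod_eq_of_lt x'.2] at h3
  · exfalso
    have h3 : (x : ℕ) = ((x' : ℕ) + (t' - t)) % D := by
      have h4 : (x : ℕ) % D = ((x' : ℕ) + (t' - t)) % D := h1
      rwa [Nat.mod_eq_of_lt x.2] at h4
    have h5 := (gap_spec s x').2.2.2 (t' - t) h0 x h3 (by rw [hx, hx'])
    omega

/-- G2. If the model `i` occurs, every position is `(x + t) % D` for exactly one pair of a copy
`x` of `i` and `t < gap s x`. Existence: take the least `t` such that `(y - t) % D` is a copy of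
`i`. Uniqueness: if `(x + t) % D = (x' + t') % D`, `t ≤ t'`, then `x = (x' + (t' - t)) % D` is a
copy of `i`, so `t' = t` by G1 (`t' - t < gap s x'`), and `x = x'` (`x, x' < D`). -/
theorem gap_cover {D n : ℕ} (s : Fin D → Fin n) (i : Fin n) (hi : ∃ x, s x = i) (y : Fin D) :
    ∃! p : Fin D × ℕ, s p.1 = i ∧ p.2 < gap s p.1 ∧ ((p.1 : ℕ) + p.2) % D = y := by
  classical
  have hex : ∃ t : ℕ, ∃ x : Fin D, s x = i ∧ ((x : ℕ) + t) % D = y := by
    obtain ⟨x0, hx0⟩ := hi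
    refine ⟨(y : ℕ) + D - x0, x0, hx0, ?_⟩
    have h1 := x0.2
    have h2 : (x0 : ℕ) + ((y : ℕ) + D - x0) = (y : ℕ) + D := by omega
    rw [h2, Nat.add_mod_right, Nat.mod_eq_of_lt y.2]
  obtain ⟨x, hx, hxy⟩ := Nat.find_spec hex
  have hlt : Nat.find hex < gap s x := by
    by_contra hcon
    rw [not_lt] at hcon
    obtain ⟨h1, _, ⟨z, hz, hzx⟩, _⟩ := gap_spec s x
    have h4 : ∃ w : Fin D, s w = i ∧ ((w : ℕ) + (Nat.find hex - gap s x)) % D = y := by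
      refine ⟨z, by rw [hzx, hx], ?_⟩
      have h5 : (x : ℕ) + gap s x + (Nat.find hex - gap s x) = (x : ℕ) + Nat.find hex := by omega
      rw [hz, Nat.mod_add_mod, h5]
      exact hxy
    exact Nat.find_min hex (m := Nat.find hex - gap s x) (by omega) h4
  refine ⟨(x, Nat.find hex), ⟨hx, hlt, hxy⟩, ?_⟩
  rintro ⟨x', t'⟩ ⟨hx', ht', hy'⟩
  simp only at hx' ht' hy'
  rcases le_total t' (Nat.find hex) with h | h
  · obtain ⟨e1, e2⟩ := gap_cover_le s i x' x t' (Nat.find hex) hx' hx hlt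
      (by rw [hy', hxy]) h
    rw [e1, e2]
  · obtain ⟨e1, e2⟩ := gap_cover_le s i x x' (Nat.find hex) t' hx hx' ht'
      (by rw [hy', hxy]) h
    rw [e1, e2]
-- END gap_cover

-- BEGIN gap_sum
/-- G3. (G2 and double counting: `∑ gap = #{(x, t)} = #(Fin D)`.) -/
theorem gap_sum {D n : ℕ} (s : Fin D → Fin n) (i : Fin n) (hi : ∃ x, s x = i) :
    ∑ x ∈ univ.filter (fun x => s x = i), gap s x = D := by
  classical
  let S : Finset (Σ _ : Fin D, ℕ) := (univ.filter fun x => s x = i).sigma fun x => range (gap s x)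
  have h1 : S.card = ∑ x ∈ univ.filter (fun x => s x = i), gap s x := by
    rw [Finset.card_sigma]
    simp only [card_range]
  have hS : ∀ p : (Σ _ : Fin D, ℕ), p ∈ S ↔ s p.1 = i ∧ p.2 < gap s p.1 := fun p => by
    rw [Finset.mem_sigma, mem_filter, mem_range]
    simp
  have h2 : S.card = (univ : Finset (Fin D)).card := by
    refine Finset.card_bij (fun p _ => ⟨((p.1 : ℕ) + p.2) % D,
      Nat.mod_lt _ (by have := p.1.2; omega)⟩) (fun p _ => mem_univ _) ?_ ?_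
    · rintro ⟨x, t⟩ hp ⟨x', t'⟩ hp' heq
      rw [hS] at hp hp'
      have h3 := congrArg Fin.val heq
      simp only at h3
      have h4 := (gap_cover s i hi ⟨((x : ℕ) + t) % D, Nat.mod_lt _ (by have := x.2; omega)⟩).unique
        (y₁ := (x, t)) (y₂ := (x', t')) ⟨hp.1, hp.2, rfl⟩ ⟨hp'.1, hp'.2, h3.symm⟩
      rw [Prod.mk.injEq] at h4
      obtain ⟨h5, h6⟩ := h4
      subst h5
      subst h6
      rfl
    · intro y _
      obtain ⟨p, ⟨hp1, hp2, hp3⟩, -⟩ := gap_cover s i hi y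
      exact ⟨⟨p.1, p.2⟩, (hS _).2 ⟨hp1, hp2⟩, Fin.ext hp3⟩
  rw [← h1, h2, Finset.card_univ, Fintype.card_fin]
-- END gap_sum

-- BEGIN rtv_eq
/-- G4. (G3; split the sum over `x` by the model `s x = i`: `Finset.sum_fiberwise`; for each `i`
`∑ (gap - D / d i) ^ 2 = ∑ gap ^ 2 - 2 (D / d i) D + d i (D / d i) ^ 2`.) -/
theorem rtv_eq {n : ℕ} (d : Fin n → ℕ) (hd : ∀ i, 0 < d i) (s : Fin (∑ i, d i) → Fin n)
    (hs : Feasible d s) :
    rtv d s = ∑ x, (gap s x : ℚ) ^ 2 - ∑ i, ((∑ i, d i : ℕ) : ℚ) ^ 2 / (d i : ℚ) := by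
  classical
  have key : ∀ i : Fin n, ∑ x ∈ univ.filter (fun x => s x = i),
      ((gap s x : ℚ) - ((∑ i, d i : ℕ) : ℚ) / (d (s x) : ℚ)) ^ 2 =
      ∑ x ∈ univ.filter (fun x => s x = i), (gap s x : ℚ) ^ 2 -
        ((∑ i, d i : ℕ) : ℚ) ^ 2 / (d i : ℚ) := by
    intro i
    have hi : ∃ x, s x = i := by
      have h1 : 0 < (univ.filter fun x => s x = i).card := by rw [hs i]; exact hd i
      obtain ⟨x, hx⟩ := Finset.card_pos.1 h1
      rw [mem_filter] at hx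
      exact ⟨x, hx.2⟩
    have hg : ∑ x ∈ univ.filter (fun x => s x = i), (gap s x : ℚ) = ((∑ i, d i : ℕ) : ℚ) := by
      have := gap_sum s i hi
      exact_mod_cast this
    have hdi : (d i : ℚ) ≠ 0 := by exact_mod_cast (hd i).ne'
    have h2 : ∀ x ∈ univ.filter (fun x => s x = i),
        ((gap s x : ℚ) - ((∑ i, d i : ℕ) : ℚ) / (d (s x) : ℚ)) ^ 2 =
        (gap s x : ℚ) ^ 2 - 2 * (((∑ i, d i : ℕ) : ℚ) / (d i : ℚ)) * (gap s x : ℚ) +
          (((∑ i, d i : ℕ) : ℚ) / (d i : ℚ)) ^ 2 := by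
      intro x hx
      rw [mem_filter] at hx
      rw [hx.2]
      ring
    rw [Finset.sum_congr rfl h2, Finset.sum_add_distrib, Finset.sum_sub_distrib, ← Finset.mul_sum,
      hg, Finset.sum_const, hs i, nsmul_eq_mul]
    field_simp
    ring
  rw [rtv, ← Finset.sum_fiberwise (univ : Finset (Fin (∑ i, d i))) s
    (fun x => ((gap s x : ℚ) - ((∑ i, d i : ℕ) : ℚ) / (d (s x) : ℚ)) ^ 2),
    ← Finset.sum_fiberwise (univ : Finset (Fin (∑ i, d i))) s (fun x => (gap s x : ℚ) ^ 2),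
    ← Finset.sum_sub_distrib]
  exact Finset.sum_congr rfl fun i _ => key i
-- END rtv_eq

end Pool.Agent.Rtv
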