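import Pool.Agent.Rtv.Gap
import Pool.Agent.Rtv.Ap

/-!
# RTV SND: a certificate gives a sequence
-/

set_option autoImplicit false

namespace Pool.Agent.Rtv

open Finset

variable {n R : ℕ} {d I A E M H : ℕ → ℕ} {G U V Z : ℕ → ℕ → ℕ} {a b : ℕ}

-- BEGIN snd_inj
/-- S1. (Different slots: `ap_sound`, also with the roles exchanged; same slot: `1 ≤ E k`.) -/
theorem snd_inj (h : Chk n R d I A E M H G U V Z a b) {k l j j' : ℕ} (hk : k < R) (hl : l < R)
    (hj : j < M k) (hj' : j' < M l) (he : A k + j * E k = A l + j' * E l) : k = l ∧ j = j' := by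
  have h1 := (h.rng k hk (by omega)).2.1
  have h2 := (h.rng l hl (by omega)).2.1
  rcases lt_trichotomy k l with hkl | hkl | hkl
  · exact absurd he (ap_sound _ _ _ _ _ _ _ _ _ _ h1 h2
      (h.dis k hk l hl hkl (by omega) (by omega)) j hj j' hj')
  · subst hkl
    refine ⟨rfl, ?_⟩
    have h3 : j * E k = j' * E k := by omega
    exact Nat.eq_of_mul_eq_mul_right (by omega) h3
  · exact absurd he.symm (ap_sound _ _ _ _ _ _ _ _ _ _ h2 h1
      (h.dis l hl k hk hkl (by omega) (by omega)) j' hj' j hj)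
-- END snd_inj

-- BEGIN snd_card
/-- S2. (`cnt`, and `I k < n` if `M k ≠ 0`: exchange the two sums.) -/
theorem snd_card (h : Chk n R d I A E M H G U V Z a b) :
    ∑ k ∈ range R, M k = ∑ i ∈ range n, d i := by
  have h1 : ∀ k ∈ range R, M k = ∑ i ∈ range n, (if I k = i then M k else 0) := by
    intro k hk
    rcases Nat.eq_zero_or_pos (M k) with h0 | h0
    · simp [h0]
    · have h2 := (h.rng k (Finset.mem_range.1 hk) (by omega)).1
      rw [Finset.sum_ite_eq, if_pos (Finset.mem_range.2 h2)]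
  rw [Finset.sum_congr rfl h1, Finset.sum_comm]
  exact Finset.sum_congr rfl fun i hi => h.cnt i (Finset.mem_range.1 hi)
-- END snd_card

-- BEGIN snd_cover
/-- S3. Every position lies in a slot. (The map `(k, j) ↦ A k + j E k` from
`(range R).sigma (fun k => range (M k))` to `range (∑ d)` is injective by S1, and the cardinalities
agree by S2: `Finset.surj_on_of_inj_on_of_card_le` or `Finset.eq_of_subset_of_card_le`.) -/
theorem snd_cover (h : Chk n R d I A E M H G U V Z a b) (x : ℕ) (hx : x < ∑ i ∈ range n, d i) :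
    ∃ k < R, ∃ j < M k, A k + j * E k = x := by
  classical
  let S : Finset (Σ _ : ℕ, ℕ) := (range R).sigma fun k => range (M k)
  let g : (Σ _ : ℕ, ℕ) → ℕ := fun p => A p.1 + p.2 * E p.1
  have hS : ∀ p ∈ S, p.1 < R ∧ p.2 < M p.1 := fun p hp => by
    have := Finset.mem_sigma.1 hp
    rw [mem_range, mem_range] at this
    exact this
  have hinj : Set.InjOn g S := by
    rintro ⟨k, j⟩ hp ⟨l, j'⟩ hp' heq
    obtain ⟨h1, h2⟩ := snd_inj h (hS _ hp).1 (hS _ hp').1 (hS _ hp).2 (hS _ hp').2 heq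
    simp only at h1 h2
    subst h1
    subst h2
    rfl
  have hsub : S.image g ⊆ range (∑ i ∈ range n, d i) := by
    intro y hy
    rw [mem_image] at hy
    obtain ⟨p, hp, rfl⟩ := hy
    obtain ⟨h1, h2⟩ := hS p hp
    have h3 := (h.rng p.1 h1 (by omega)).2.2.2
    have h4 : p.2 * E p.1 ≤ (M p.1 - 1) * E p.1 := Nat.mul_le_mul_right _ (by omega)
    rw [mem_range]
    show A p.1 + p.2 * E p.1 < _
    omega
  have hcard : (range (∑ i ∈ range n, d i)).card ≤ (S.image g).card := by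
    rw [Finset.card_image_of_injOn hinj, card_range, Finset.card_sigma]
    simp only [card_range]
    exact (snd_card h).ge
  have heq := Finset.eq_of_subset_of_card_le hsub hcard
  have hx' : x ∈ S.image g := by
    rw [heq, mem_range]
    exact hx
  rw [mem_image] at hx'
  obtain ⟨p, hp, hpx⟩ := hx'
  exact ⟨p.1, (hS p hp).1, p.2, (hS p hp).2, hpx⟩
-- END snd_cover

-- BEGIN snd_word
private theorem snd_word_reindex (h : Chk n R d I A E M H G U V Z a b) (F : ℕ → ℕ) :
    ∑ x ∈ range (∑ i ∈ range n, d i), F x =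
      ∑ k ∈ range R, ∑ j ∈ range (M k), F (A k + j * E k) := by
  rw [Finset.sum_sigma']
  symm
  refine Finset.sum_bij (fun p _ => A p.1 + p.2 * E p.1) ?_ ?_ ?_ ?_
  · rintro ⟨k, j⟩ hp
    rw [mem_sigma, mem_range, mem_range] at hp
    obtain ⟨hk, hj⟩ := hp
    simp only at hk hj
    have h1 := (h.rng k hk (by omega)).2.2.2
    have h2 : j * E k ≤ (M k - 1) * E k := Nat.mul_le_mul_right _ (by omega)
    rw [mem_range]
    simp only
    omega
  · rintro ⟨k, j⟩ hp ⟨l, j'⟩ hp' heq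
    rw [mem_sigma, mem_range, mem_range] at hp hp'
    obtain ⟨h1, h2⟩ := snd_inj h hp.1 hp'.1 hp.2 hp'.2 heq
    simp only at h1 h2
    subst h1
    subst h2
    rfl
  · intro x hx
    rw [mem_range] at hx
    obtain ⟨k, hk, j, hj, hx'⟩ := snd_cover h x hx
    exact ⟨⟨k, j⟩, by rw [mem_sigma, mem_range, mem_range]; exact ⟨hk, hj⟩, hx'⟩
  · intro p _
    rfl

/-- S4. The word: `s x = I k` for the slot `k` of `x`. The count of the model `i`: the copies of
`i` are in bijection with the pairs `(k, j)` with `I k = i`, `j < M k` (S1, S3, `rng`). -/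
theorem snd_word {n R : ℕ} {d : Fin n → ℕ} {I A E M H : ℕ → ℕ} {G U V Z : ℕ → ℕ → ℕ} {a b : ℕ}
    (h : Chk n R (dN d) I A E M H G U V Z a b) :
    ∃ s : Fin (∑ i, d i) → Fin n, Feasible d s ∧
      ∀ k < R, ∀ j < M k, ∀ x : Fin (∑ i, d i), (x : ℕ) = A k + j * E k → (s x : ℕ) = I k := by
  classical
  have hc : ∀ x : Fin (∑ i, d i), ∃ k, k < R ∧ ∃ j, j < M k ∧ A k + j * E k = (x : ℕ) := fun x => by
    obtain ⟨k, hk, j, hj, hx⟩ := snd_cover h x (by rw [sum_dN]; exact x.2)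
    exact ⟨k, hk, j, hj, hx⟩
  choose κ hκ jj hj hx using hc
  have hs : ∀ x, I (κ x) < n := fun x => (h.rng _ (hκ x) (by have := hj x; omega)).1
  have hprop : ∀ k < R, ∀ j < M k, ∀ x : Fin (∑ i, d i), (x : ℕ) = A k + j * E k →
      I (κ x) = I k := by
    intro k hk j hj' x hx'
    have := (snd_inj h (hκ x) hk (hj x) hj' ((hx x).trans hx')).1
    rw [this]
  refine ⟨fun x => ⟨I (κ x), hs x⟩, fun i => ?_, hprop⟩
  let F : ℕ → ℕ := fun x => if hx : x < ∑ i, d i then (if I (κ ⟨x, hx⟩) = i then 1 else 0) else 0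
  have h1 : (univ.filter fun x : Fin (∑ i, d i) => (⟨I (κ x), hs x⟩ : Fin n) = i).card =
      ∑ x ∈ range (∑ i, d i), F x := by
    rw [Finset.sum_range, Finset.card_filter]
    refine Finset.sum_congr rfl fun x _ => ?_
    show _ = if hx : (x : ℕ) < ∑ i, d i then _ else 0
    rw [dif_pos x.2]
    by_cases hc : I (κ x) = i
    · rw [if_pos (Fin.ext hc), if_pos hc]
    · rw [if_neg (fun h' => hc (congrArg Fin.val h')), if_neg hc]
  have h2 := snd_word_reindex h F
  rw [sum_dN] at h2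
  rw [h1, h2]
  have h3 := h.cnt i i.2
  rw [dN, dif_pos i.2] at h3
  rw [← h3]
  refine Finset.sum_congr rfl fun k hk => ?_
  rw [mem_range] at hk
  have h4 : ∀ j ∈ range (M k), F (A k + j * E k) = if I k = i then 1 else 0 := by
    intro j hj'
    rw [mem_range] at hj'
    have h5 := (h.rng k hk (by omega)).2.2.2
    have h6 : j * E k ≤ (M k - 1) * E k := Nat.mul_le_mul_right _ (by omega)
    rw [sum_dN] at h5
    show (if hx : A k + j * E k < ∑ i, d i then _ else 0) = _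
    rw [dif_pos (by omega), hprop k hk j hj' _ rfl]
  rw [Finset.sum_congr rfl h4, Finset.sum_const, card_range]
  by_cases hc : I k = i
  · rw [if_pos hc, if_pos hc, smul_eq_mul, mul_one]
  · rw [if_neg hc, if_neg hc, smul_eq_mul, mul_zero]
-- END snd_word

-- BEGIN snd_gap
/-- S5. The gaps are at most `E k` inside a slot and at most `H k` at its end. (G1: the position
`x + E k = A k + (j + 1) E k` is a copy; at the end `nxt` gives the copy `A l`, the element `j = 0`
of the slot `l`.) -/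
theorem snd_gap {n R : ℕ} {d : Fin n → ℕ} {I A E M H : ℕ → ℕ} {G U V Z : ℕ → ℕ → ℕ} {a b : ℕ}
    (h : Chk n R (dN d) I A E M H G U V Z a b) (s : Fin (∑ i, d i) → Fin n)
    (hs : ∀ k < R, ∀ j < M k, ∀ x : Fin (∑ i, d i), (x : ℕ) = A k + j * E k → (s x : ℕ) = I k) :
    ∀ k < R, ∀ j < M k, ∀ x : Fin (∑ i, d i), (x : ℕ) = A k + j * E k →
      gap s x ≤ if j + 1 = M k then H k else E k := by
  intro k hk j hj x hx
  have hM : M k ≠ 0 := by omega
  obtain ⟨r1, r2, r3, r4⟩ := h.rng k hk hM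
  rw [sum_dN] at r4
  have hsx := hs k hk j hj x hx
  split_ifs with hc
  · obtain ⟨l, hl, hMl, hIl, hAl⟩ := h.nxt k hk hM
    rw [sum_dN] at hAl
    have hj' : j = M k - 1 := by omega
    have hD : 0 < ∑ i, d i := by have := x.2; omega
    have hlt : A l < ∑ i, d i := by rw [← hAl]; exact Nat.mod_lt _ hD
    refine (gap_spec s x).2.2.2 (H k) r3 ⟨A l, hlt⟩ ?_ ?_
    · show A l = _
      rw [hx, hj']
      exact hAl.symm
    · apply Fin.ext
      rw [hsx, ← hIl]
      exact hs l hl 0 (by omega) ⟨A l, hlt⟩ (by simp)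
  · have h1 : (j + 1) * E k ≤ (M k - 1) * E k := Nat.mul_le_mul_right _ (by omega)
    have h2 : (j + 1) * E k = j * E k + E k := by ring
    have hlt : A k + (j + 1) * E k < ∑ i, d i := by omega
    refine (gap_spec s x).2.2.2 (E k) r2 ⟨A k + (j + 1) * E k, hlt⟩ ?_ ?_
    · show A k + (j + 1) * E k = _
      rw [hx, Nat.mod_eq_of_lt (by omega)]
      omega
    · apply Fin.ext
      rw [hsx]
      exact hs k hk (j + 1) (by omega) ⟨A k + (j + 1) * E k, hlt⟩ rfl
-- END snd_gap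

-- BEGIN snd_sum
private theorem snd_sum_inner (m h e : ℕ) :
    ∑ j ∈ range m, (if j + 1 = m then h * h else e * e) =
      if m = 0 then 0 else (m - 1) * (e * e) + h * h := by
  cases m with
  | zero => simp
  | succ m =>
    rw [Finset.sum_range_succ, if_pos rfl, if_neg (by omega), Nat.add_sub_cancel]
    congr 1
    have : ∀ j ∈ range m, (if j + 1 = m + 1 then h * h else e * e) = e * e := fun j hj => by
      rw [mem_range] at hj
      rw [if_neg (by omega)]
    rw [Finset.sum_congr rfl this, Finset.sum_const, card_range, smul_eq_mul]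

/-- S6. (Sum over the slots: the map `(k, j) ↦ A k + j E k` is a bijection onto the positions, and
`∑ j < m, (if j + 1 = m then h * h else e * e) = (m - 1) (e * e) + h * h` for `m ≠ 0`.) -/
theorem snd_sum {n R : ℕ} {d : Fin n → ℕ} {I A E M H : ℕ → ℕ} {G U V Z : ℕ → ℕ → ℕ} {a b : ℕ}
    (h : Chk n R (dN d) I A E M H G U V Z a b) (f : Fin (∑ i, d i) → ℕ)
    (hf : ∀ k < R, ∀ j < M k, ∀ x : Fin (∑ i, d i), (x : ℕ) = A k + j * E k →
      f x ≤ if j + 1 = M k then H k else E k) :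
    ∑ x, f x * f x ≤
      ∑ k ∈ range R, (if M k = 0 then 0 else (M k - 1) * (E k * E k) + H k * H k) := by
  let F : ℕ → ℕ := fun x => if hx : x < ∑ i, d i then f ⟨x, hx⟩ * f ⟨x, hx⟩ else 0
  have h1 : ∑ x, f x * f x = ∑ x ∈ range (∑ i, d i), F x := by
    rw [Finset.sum_range]
    refine Finset.sum_congr rfl fun x _ => ?_
    show _ = if hx : (x : ℕ) < ∑ i, d i then _ else 0
    rw [dif_pos x.2]
  have h2 := snd_word_reindex h F
  rw [sum_dN] at h2
  rw [h1, h2]
  refine Finset.sum_le_sum fun k hk => ?_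
  rw [mem_range] at hk
  rw [← snd_sum_inner]
  refine Finset.sum_le_sum fun j hj => ?_
  rw [mem_range] at hj
  have h5 := (h.rng k hk (by omega)).2.2.2
  have h6 : j * E k ≤ (M k - 1) * E k := Nat.mul_le_mul_right _ (by omega)
  rw [sum_dN] at h5
  show (if hx : A k + j * E k < ∑ i, d i then _ else 0) ≤ _
  rw [dif_pos (by omega)]
  have h7 := hf k hk j hj ⟨A k + j * E k, by omega⟩ rfl
  split_ifs at h7 ⊢
  · exact Nat.mul_le_mul h7 h7
  · exact Nat.mul_le_mul h7 h7
-- END snd_sum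

-- BEGIN sound
/-- S7. (S4, S5, S6, `rtv_eq`; divide `cst` by `b ∏ d i`; `(∏ d) / d i` is exact.) -/
theorem sound {n R : ℕ} {d : Fin n → ℕ} {I A E M H : ℕ → ℕ} {G U V Z : ℕ → ℕ → ℕ} {a b : ℕ}
    (h : Chk n R (dN d) I A E M H G U V Z a b) (hb : 0 < b) (hd : ∀ i, 0 < d i) :
    ∃ s, Feasible d s ∧ rtv d s ≤ (a : ℚ) / b := by
  obtain ⟨s, hs, hs'⟩ := snd_word h
  refine ⟨s, hs, ?_⟩
  have h1 := snd_sum h (fun x => gap s x) (snd_gap h s hs')
  have h2 := h.cst
  rw [sum_dN, prod_dN] at h2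
  have hP : 0 < ∏ i, d i := Finset.prod_pos fun i _ => hd i
  have h3 : b * (∏ i, d i) * ∑ x, gap s x * gap s x ≤
      a * (∏ i, d i) + b * ((∑ i, d i) * (∑ i, d i)) *
        ∑ i ∈ range n, (∏ i, d i) / dN d i := (Nat.mul_le_mul_left _ h1).trans h2
  have h4 : ((∑ i ∈ range n, (∏ i, d i) / dN d i : ℕ) : ℚ) =
      (∏ i, d i : ℕ) * ∑ i, 1 / (d i : ℚ) := by
    rw [Finset.sum_range, Nat.cast_sum, Finset.mul_sum]
    refine Finset.sum_congr rfl fun i _ => ?_
    rw [dN, dif_pos i.2, Nat.cast_div (Finset.dvd_prod_of_mem d (mem_univ i))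
      (by exact_mod_cast (hd i).ne')]
    ring
  have h5 : ((b * (∏ i, d i) * ∑ x, gap s x * gap s x : ℕ) : ℚ) ≤
      ((a * (∏ i, d i) + b * ((∑ i, d i) * (∑ i, d i)) *
        ∑ i ∈ range n, (∏ i, d i) / dN d i : ℕ) : ℚ) := by exact_mod_cast h3
  rw [Nat.cast_mul, Nat.cast_mul, Nat.cast_add, Nat.cast_mul, Nat.cast_mul, Nat.cast_mul,
    Nat.cast_mul, h4] at h5
  rw [rtv_eq d hd s hs]
  have hbQ : (0 : ℚ) < b := by exact_mod_cast hb
  have hPQ : (0 : ℚ) < (∏ i, d i : ℕ) := by exact_mod_cast hP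
  have h6 : ∑ x, (gap s x : ℚ) ^ 2 = ((∑ x, gap s x * gap s x : ℕ) : ℚ) := by
    rw [Nat.cast_sum]
    refine Finset.sum_congr rfl fun x _ => ?_
    rw [Nat.cast_mul, sq]
  have h7 : ∑ i, ((∑ i, d i : ℕ) : ℚ) ^ 2 / (d i : ℚ) =
      ((∑ i, d i : ℕ) : ℚ) ^ 2 * ∑ i, 1 / (d i : ℚ) := by
    rw [Finset.mul_sum]
    refine Finset.sum_congr rfl fun i _ => ?_
    ring
  rw [h6, h7, le_div_iff₀ hbQ]
  set S : ℚ := ((∑ x, gap s x * gap s x : ℕ) : ℚ)
  set P : ℚ := ((∏ i, d i : ℕ) : ℚ)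
  set D : ℚ := ((∑ i, d i : ℕ) : ℚ)
  set T : ℚ := ∑ i, 1 / (d i : ℚ)
  have h8 : P * ((S - D ^ 2 * T) * b) ≤ P * a := by
    have : (b : ℚ) * P * S ≤ a * P + b * (D * D) * (P * T) := h5
    nlinarith
  exact le_of_mul_le_mul_left h8 hPQ
-- END sound

end Pool.Agent.Rtv
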